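import Mathlib

/-!
Definitions for the statement: right-angled Artin groups, area, Dehn function, growth classes.
-/

namespace Pool.Agent.Lib.MP_8cfc4a_al

/-- The relators of the right-angled Artin group of a graph: the commutators of the generators
of adjacent vertices. -/
def raagRels {V : Type} (Γ : SimpleGraph V) : Set (FreeGroup V) :=
  {r | ∃ u v, Γ.Adj u v ∧
    r = FreeGroup.of u * FreeGroup.of v * (FreeGroup.of u)⁻¹ * (FreeGroup.of v)⁻¹}

/-- The right-angled Artin group of a graph. -/
abbrev RAAG {V : Type} (Γ : SimpleGraph V) : Type := PresentedGroup (raagRels Γ)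

/-- `w` is, in the free group, a product of at most `N` conjugates of relators or their
inverses. -/
def AreaLE {S : Type} (R : Set (FreeGroup S)) (w : FreeGroup S) (N : ℕ) : Prop :=
  ∃ L : List (FreeGroup S × FreeGroup S), L.length ≤ N ∧ (∀ p ∈ L, p.2 ∈ R ∨ p.2⁻¹ ∈ R) ∧
    (L.map fun p => p.1 * p.2 * p.1⁻¹).prod = w

/-- The Dehn function of the presentation with generators `S` and relators `R`: the least `N`
such that every word of length at most `n` that is trivial in the group has area at most `N`. -/
noncomputable def dehn {S : Type} (R : Set (FreeGroup S)) (n : ℕ) : ℕ :=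
  sInf {N : ℕ | ∀ w : List (S × Bool), w.length ≤ n →
    PresentedGroup.mk R (FreeGroup.mk w) = 1 → AreaLE R (FreeGroup.mk w) N}

/-- The usual domination preorder on functions. -/
def Preceq (f g : ℕ → ℝ) : Prop :=
  ∃ C : ℕ, 0 < C ∧ ∀ n : ℕ, f n ≤ C * g (C * n + C) + C * n + C

/-- `f` dominates the exponential function and is not dominated by it. -/
def SuperExp (f : ℕ → ℝ) : Prop :=
  Preceq (fun n => Real.exp n) f ∧ ¬ Preceq f (fun n => Real.exp n)

end Pool.Agent.Lib.MP_8cfc4a_al
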