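import Pool.Agent.Lib.MP_8cfc4a_al.Ext

/-!
The two step tower, and its virtual embedding in a right-angled Artin group.
-/

namespace Pool.Agent.Lib.MP_8cfc4a_al

open SemidirectProduct

instance : GAct ℤˣ (⊥ : SimpleGraph ℤˣ) := ⟨fun _ _ _ h => h.elim⟩

/-- The infinite cyclic group with its special structure. -/
@[reducible] def X0 : Sp where
  G := FreeGroup Unit
  S := Unit
  V := ℤˣ
  Γ := ⊥
  Q := ℤˣ
  val := FreeGroup.of
  y _ := 1
  σ _ := -1
  Ψ := FreeGroup.lift fun _ => ⟨gen ⊥ 1, -1⟩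
  fp := inferInstance
  hgen := FreeGroup.closure_range_of _
  hΨ _ := FreeGroup.lift_apply_of
  inj := by
    rintro ⟨⟨⟩, _ | _⟩ ⟨⟨⟩, _ | _⟩ h <;> first | rfl | exact absurd h (by decide)
  sq _ _ h := h.elim

theorem comm_inl {V : Type} {Γ : SimpleGraph V} {Q : Type} [Group Q] [MulAction Q V] [GAct Q Γ]
    {z : V} {a : Wr Γ Q} (h1 : a.left ∈ par Γ (Γ.neighborSet z)) (h2 : a.right • z = z) :
    Commute (inl (gen Γ z) : Wr Γ Q) a := by
  refine SemidirectProduct.ext ?_ (by simp)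
  simp only [mul_left, left_inl, right_inl, map_one, MulAut.one_apply, act_gen, h2]
  exact commute_par h1

theorem commute_of_gen {V V' G : Type} [Group G] {Γ : SimpleGraph V} {Γ' : SimpleGraph V'}
    (f : RAAG Γ →* G) (g : RAAG Γ' →* G) (h : ∀ u v, Commute (f (gen Γ u)) (g (gen Γ' v)))
    (a : RAAG Γ) (b : RAAG Γ') : Commute (f a) (g b) := by
  have h1 : ∀ v, f a ∈ Subgroup.centralizer {g (gen Γ' v)} := fun v =>
    map_par f _ (fun u _ => by
      rw [Subgroup.mem_centralizer_singleton_iff]; exact h u v) (mem_par_univ a)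
  have h2 : g b ∈ Subgroup.centralizer {f a} :=
    map_par g _ (fun v _ => by
      have := h1 v
      rw [Subgroup.mem_centralizer_singleton_iff] at this ⊢
      exact this.symm) (mem_par_univ b)
  rw [Subgroup.mem_centralizer_singleton_iff] at h2
  exact h2.symm

theorem conj_closure {G : Type} [Group G] {T : Set G} {x : G}
    (h : ∀ t ∈ T, x * t * x⁻¹ ∈ Subgroup.closure T) {a : G} (ha : a ∈ Subgroup.closure T) :
    x * a * x⁻¹ ∈ Subgroup.closure T := by
  have : Subgroup.closure T ≤ (Subgroup.closure T).comap (MulAut.conj x).toMonoidHom := by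
    rw [Subgroup.closure_le]; exact h
  exact this ha

/-- Vertices of the final graph. -/
inductive V3 (A B : Type) : Type
  | a (v : A)
  | b (v : B)
  | c

namespace V3
variable {A B P Q : Type} [Group P] [Group Q] [MulAction P A] [MulAction Q B]

instance : SMul (P × Q) (V3 A B) := ⟨fun g x => match x with
  | .a v => .a (g.1 • v)
  | .b v => .b (g.2 • v)
  | .c => .c⟩

@[simp] theorem smul_a (g : P × Q) (v : A) : g • (V3.a v : V3 A B) = .a (g.1 • v) := rfl
@[simp] theorem smul_b (g : P × Q) (v : B) : g • (V3.b v : V3 A B) = .b (g.2 • v) := rfl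
@[simp] theorem smul_c (g : P × Q) : g • (V3.c : V3 A B) = .c := rfl

instance : MulAction (P × Q) (V3 A B) where
  one_smul x := by cases x <;> simp
  mul_smul a b x := by cases x <;> simp [mul_smul]

instance [Finite A] [Finite B] : Finite (V3 A B) :=
  Finite.of_surjective (fun x : Option (A ⊕ B) => x.elim V3.c (Sum.elim V3.a V3.b)) (by
    rintro (v | v | _)
    · exact ⟨some (.inl v), rfl⟩
    · exact ⟨some (.inr v), rfl⟩
    · exact ⟨none, rfl⟩)

/-- adjacency -/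
def adj (Γ : SimpleGraph A) (Γ' : SimpleGraph B) (Z : Set A) : V3 A B → V3 A B → Prop
  | .a u, .a v => Γ.Adj u v
  | .b u, .b v => Γ'.Adj u v
  | .a _, .b _ => True
  | .b _, .a _ => True
  | .c, .a v => v ∉ Z
  | .a v, .c => v ∉ Z
  | .c, .b _ => False
  | .b _, .c => False
  | .c, .c => False

/-- The final graph. -/
def gr (Γ : SimpleGraph A) (Γ' : SimpleGraph B) (Z : Set A) : SimpleGraph (V3 A B) where
  Adj := adj Γ Γ' Z
  symm := ⟨by
    rintro (u | u | _) (v | v | _) h <;> first | exact h | exact h.symm⟩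
  loopless := ⟨by
    rintro (u | u | _) h
    · exact h.ne rfl
    · exact h.ne rfl
    · exact h⟩

theorem gact (Γ : SimpleGraph A) (Γ' : SimpleGraph B) [GAct P Γ] [GAct Q Γ'] (Z : Set A)
    (hZ : ∀ (g : P) v, g • v ∈ Z ↔ v ∈ Z) : GAct (P × Q) (gr Γ Γ' Z) where
  adj g := by
    rintro (u | u | _) (v | v | _) h
    · exact GAct.adj (Γ := Γ) _ _ _ h
    · exact h
    · exact fun h' => h ((hZ _ _).1 h')
    · exact h
    · exact GAct.adj (Γ := Γ') _ _ _ h
    · exact h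
    · exact fun h' => h ((hZ _ _).1 h')
    · exact h
    · exact h

end V3

namespace Ext
variable {X : Sp} {D : RD X} (E : Ext D)

/-- the normalised subgroup -/
def K : Subgroup E.Y.G := Subgroup.closure (Set.range fun k => E.Y.val (E.kl k))

theorem mem_K (k) : E.Y.val (E.kl k) ∈ E.K := Subgroup.subset_closure ⟨k, rfl⟩

theorem exists_π : ∃ π : E.Y.G →* X.G, (∀ g, π (E.ι g) = g) ∧ ∀ k ∈ E.K, π k = 1 := by
  obtain ⟨π, h1, h2⟩ := E.up1 X.G (MonoidHom.id _) (fun _ => 1) rfl (by simp)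
  refine ⟨π, h1, fun k hk => ?_⟩
  have : E.K ≤ π.ker := (Subgroup.closure_le _).2 (by rintro _ ⟨k, rfl⟩; exact h2 k)
  exact this hk

theorem norm' (c ε) {k} (hk : k ∈ E.K) :
    bp (E.ι (X.val (D.cl c))) ε * k * (bp (E.ι (X.val (D.cl c))) ε)⁻¹ ∈ E.K :=
  conj_closure (by rintro _ ⟨k, rfl⟩; exact E.norm c ε k) hk

/-- The data for the next step. -/
@[reducible] def next (tbl : E.Kk → Bool → Fin 3 → Fin 3 × Fin 3 × Fin 3) : RD E.Y :=
  ⟨E.Kk, E.kl, tbl, E.z⟩

/-- relators making the new generator commute with `K` -/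
def hrel : Set (Monoid.Coprod E.Y.G (FreeGroup Unit)) :=
  Set.range fun k => Monoid.Coprod.inr (FreeGroup.of ()) * Monoid.Coprod.inl (E.Y.val (E.kl k)) *
    (Monoid.Coprod.inl (E.Y.val (E.kl k)) * Monoid.Coprod.inr (FreeGroup.of ()))⁻¹

/-- the final group -/
abbrev H : Type := Ag E.hrel

theorem H_fp : Group.IsFinitelyPresented E.H := haveI := E.Y.fp; ag_fp _ (Set.finite_range _)

/-- the new generator -/
def v : E.H := agn _ ()
/-- the inclusion -/
def ιH : E.Y.G →* E.H := agι _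

theorem v_comm {k} (hk : k ∈ E.K) : Commute E.v (E.ιH k) := by
  have : E.K ≤ (Subgroup.centralizer {E.v}).comap E.ιH := by
    refine (Subgroup.closure_le _).2 ?_
    rintro _ ⟨k, rfl⟩
    have h := ag_rel E.hrel ⟨k, rfl⟩
    simp only [map_mul, map_inv, Monoid.Coprod.lift_apply_inr, Monoid.Coprod.lift_apply_inl,
      FreeGroup.lift_apply_of, mul_inv_eq_one] at h
    simp only [Subgroup.coe_comap, Set.mem_preimage, SetLike.mem_coe,
      Subgroup.mem_centralizer_singleton_iff]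
    exact h.symm
  have h := this hk
  rw [Subgroup.mem_comap, Subgroup.mem_centralizer_singleton_iff] at h
  exact h.symm

theorem H_lift {W : Type} [Group W] (μ : E.Y.G →* W) (w : W)
    (h : ∀ k, Commute w (μ (E.Y.val (E.kl k)))) :
    ∃ f : E.H →* W, (∀ g, f (E.ιH g) = μ g) ∧ f E.v = w := by
  obtain ⟨f, h1, h2⟩ := ag_lift E.hrel μ (fun _ => w) (by
    rintro _ ⟨k, rfl⟩
    simp only [map_mul, map_inv, Monoid.Coprod.lift_apply_inr, Monoid.Coprod.lift_apply_inl,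
      FreeGroup.lift_apply_of, mul_inv_eq_one]
    exact h k)
  exact ⟨f, h1, h2 ()⟩

theorem H_gen (K : Subgroup E.H) (h1 : ∀ g, E.ιH g ∈ K) (h2 : E.v ∈ K) : K = ⊤ :=
  ag_gen _ K h1 (fun _ => h2)

end Ext

/-- first data -/
@[reducible] def D0 (tbl : Bool → Fin 3 → Fin 3 × Fin 3 × Fin 3) : RD X0 :=
  ⟨Unit, id, fun _ => tbl, 1⟩

section tower
variable {tbl0 : Bool → Fin 3 → Fin 3 × Fin 3 × Fin 3} (E1 : Ext (D0 tbl0))
  {tbl1 : E1.Kk → Bool → Fin 3 → Fin 3 × Fin 3 × Fin 3} (E2 : Ext (E1.next tbl1))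

theorem norm_CK {c : E1.Y.G} (hc : c ∈ E1.K) {k} (hk : k ∈ E2.K) :
    E2.ι c * k * (E2.ι c)⁻¹ ∈ E2.K := by
  have : E1.K ≤ (Subgroup.normalizer (E2.K : Set E2.Y.G)).comap E2.ι := by
    refine (Subgroup.closure_le _).2 ?_
    rintro _ ⟨c, rfl⟩
    simp only [Subgroup.coe_comap, Set.mem_preimage, SetLike.mem_coe, Subgroup.mem_normalizer_iff]
    intro k
    refine ⟨E2.norm' c true, fun h => ?_⟩
    simpa [mul_assoc] using E2.norm' c false h
  exact ((Subgroup.mem_normalizer_iff.1 (this hc)) k).1 hk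

theorem exists_hat : ∃ (Ψ : E2.Y.G →* Wr E2.Y.Γ E2.Y.Q) (π : E2.Y.G →* E1.Y.G),
    (∀ k ∈ E2.K, π k = 1) ∧ (∀ k ∈ E2.K, (Ψ k).left ∈ par E2.Y.Γ E2.Zᶜ) ∧
    (∀ u, (Ψ u).left ∈ par E2.Y.Γ E2.Zᶜ → π u = 1 → u ∈ E2.K) ∧
    ∀ u ∈ E2.K, (Ψ u).left = 1 → u = 1 := by
  obtain ⟨π1, a1, a2⟩ := E1.exists_π
  obtain ⟨π2, b1, b2⟩ := E2.exists_π
  let ζ : FreeGroup Unit →* Wr E2.Y.Γ E2.Y.Q := FreeGroup.lift fun _ => inl (gen E2.Y.Γ E2.z)
  have hcomm : ∀ g m, Commute (ζ g) ((E2.Y.Ψ.comp E2.ι) m) := by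
    intro g m
    induction g using FreeGroup.induction_on with
    | C1 => simp
    | of t => simpa [ζ] using comm_inl (E2.hι1 m) (E2.hι2 m)
    | inv_of t ht => simpa using ht
    | mul a b ha hb => simpa using ha.mul_left hb
  obtain ⟨Ψ, c1, c2⟩ := E2.up2 _ E2.Y.Ψ ((ζ.noncommCoprod _ hcomm).comp
    (π1.prod (MonoidHom.id _))) (fun c => by simp [a2 _ (E1.mem_K c)])
  simp only [MonoidHom.comp_apply, MonoidHom.prod_apply, MonoidHom.id_apply,
    MonoidHom.noncommCoprod_apply] at c1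
  let G1 : Subgroup E2.Y.G := E2.K ⊔ E1.K.map E2.ι
  have d1 : ∀ a ∈ G1, Ψ a = E2.Y.Ψ a := by
    have : G1 ≤ Ψ.eqLocus E2.Y.Ψ := by
      refine sup_le ((Subgroup.closure_le _).2 ?_) ?_
      · rintro _ ⟨k, rfl⟩; exact c2 k
      · rintro _ ⟨c, hc, rfl⟩
        change Ψ _ = E2.Y.Ψ _
        rw [c1, a2 c hc, map_one, one_mul]
    exact fun a ha => this ha
  have d2 : ∀ a ∈ G1, π2 a ∈ E1.K ∧ a * (E2.ι (π2 a))⁻¹ ∈ E2.K := by
    let S : Subgroup E2.Y.G :=
      { carrier := {a | π2 a ∈ E1.K ∧ a * (E2.ι (π2 a))⁻¹ ∈ E2.K}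
        one_mem' := by simp
        mul_mem' := by
          rintro a b ⟨h1, h2⟩ ⟨h3, h4⟩
          refine ⟨by simpa using mul_mem h1 h3, ?_⟩
          have := mul_mem h2 (norm_CK E1 E2 h1 h4)
          simpa [mul_assoc] using this
        inv_mem' := by
          rintro a ⟨h1, h2⟩
          refine ⟨by simpa using h1, ?_⟩
          have := inv_mem (norm_CK E1 E2 (inv_mem h1) h2)
          simpa [mul_assoc] using this }
    have : G1 ≤ S := by
      refine sup_le (fun k hk => ?_) ?_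
      · exact ⟨by rw [b2 k hk]; exact one_mem _, by simpa [b2 k hk] using hk⟩
      · rintro _ ⟨c, hc, rfl⟩
        exact ⟨by rw [b1]; exact hc, by simp [b1]⟩
    exact fun a ha => this ha
  have d3 : ∀ u, (Ψ u).left ∈ par E2.Y.Γ E2.Zᶜ → u ∈ G1 := by
    refine stable_lemma Ψ G1 (E2.ι (E1.ι (FreeGroup.of ()))) ?_ E2.Z E2.hZ E2.z E2.hz E2.hlk
      (fun a ha => by rw [d1 a ha]; exact E2.Y.left_mem _ E2.hZ E2.hy a) _
      (E2.hι1 (E1.ι (FreeGroup.of ()))) (by simp [c1, a1, ζ]) (by simp [c1, a1, ζ, E2.hι2]) ?_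
    · refine E2.hgen _ (fun m => ?_) (fun k => Subgroup.subset_closure (Or.inl
        (Subgroup.mem_sup_left (E2.mem_K k))))
      have := E1.hgen ((Subgroup.closure ((G1 : Set E2.Y.G) ∪
          {E2.ι (E1.ι (FreeGroup.of ()))})).comap E2.ι) (fun g => by
        induction g using FreeGroup.induction_on with
        | C1 => simp
        | of t => exact Subgroup.subset_closure (Or.inr rfl)
        | inv_of t ht => simpa using ht
        | mul a b ha hb => simpa using mul_mem ha hb)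
        (fun k => Subgroup.subset_closure (Or.inl
          (Subgroup.mem_sup_right ⟨_, E1.mem_K k, rfl⟩)))
      exact (Subgroup.eq_top_iff' _).1 this m
    · intro a ha h
      rw [d1 a ha] at h
      obtain ⟨m, rfl⟩ := E2.conv a h
      have hm := (d2 _ ha).1
      rw [b1] at hm
      constructor
      · exact Subgroup.mem_sup_right ⟨_, E1.norm' () true hm, by simp⟩
      · exact Subgroup.mem_sup_right ⟨_, E1.norm' () false hm, by simp⟩
  refine ⟨Ψ, π2, b2, fun k hk => ?_, fun u h1 h2 => ?_, fun u hu h => ?_⟩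
  · rw [d1 k (Subgroup.mem_sup_left hk)]
    exact E2.Y.left_mem _ E2.hZ E2.hy k
  · simpa [h2] using (d2 u (d3 u h1)).2
  · rw [d1 u (Subgroup.mem_sup_left hu)] at h
    exact E2.Y.faithful u h

theorem exists_embed : ∃ (V : Type) (_ : Finite V) (Γ : SimpleGraph V) (Q : Type) (_ : Group Q)
    (_ : Finite Q) (_ : MulAction Q V) (_ : GAct Q Γ) (Ξ : E2.H →* Wr Γ Q),
    ∀ h, (Ξ h).left = 1 → h = 1 := by
  obtain ⟨Ψ, π, h1, h2, h3, h4⟩ := exists_hat E1 E2
  let Γ := V3.gr E2.Y.Γ E1.Y.Γ E2.Z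
  have : GAct (E2.Y.Q × E1.Y.Q) Γ := V3.gact _ _ _ E2.hZ
  let r2 : RAAG E2.Y.Γ →* RAAG Γ := rmap V3.a (fun _ _ h => h)
  let r1 : RAAG E1.Y.Γ →* RAAG Γ := rmap V3.b (fun _ _ h => h)
  let j2 : Wr E2.Y.Γ E2.Y.Q →* Wr Γ (E2.Y.Q × E1.Y.Q) :=
    wmap V3.a (fun _ _ h => h) (MonoidHom.inl _ _) (fun _ _ => rfl)
  let j1 : Wr E1.Y.Γ E1.Y.Q →* Wr Γ (E2.Y.Q × E1.Y.Q) :=
    wmap V3.b (fun _ _ h => h) (MonoidHom.inr _ _) (fun _ _ => rfl)
  have e1 : ∀ (g : E2.Y.Q) b, act Γ (E2.Y.Q × E1.Y.Q) (g, 1) (r1 b) = r1 b := fun g b =>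
    DFunLike.congr_fun (rhom_ext (f := (act Γ (E2.Y.Q × E1.Y.Q) (g, 1)).toMonoidHom.comp r1)
      (g := r1) (fun v => by simp [r1])) b
  have e2 : ∀ (g : E1.Y.Q) b, act Γ (E2.Y.Q × E1.Y.Q) (1, g) (r2 b) = r2 b := fun g b =>
    DFunLike.congr_fun (rhom_ext (f := (act Γ (E2.Y.Q × E1.Y.Q) (1, g)).toMonoidHom.comp r2)
      (g := r2) (fun v => by simp [r2])) b
  have e3 : ∀ a b, Commute (r2 a) (r1 b) := commute_of_gen r2 r1 (fun u v => by
    simp only [r1, r2, rmap_gen]; exact gen_comm trivial)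
  have e4 : ∀ a b, (j2 a * j1 b).left = r2 a.left * r1 b.left := fun a b =>
    congrArg (fun x => r2 a.left * x) (e1 a.right b.left)
  have hcomm : ∀ a b, Commute (j2 a) (j1 b) := by
    intro a b
    refine SemidirectProduct.ext ?_ (by simp [j1, j2])
    rw [e4, (e3 _ _).eq]
    exact (congrArg (fun x => r1 b.left * x) (e2 b.right a.left)).symm
  let Ξ0 : E2.Y.G →* Wr Γ (E2.Y.Q × E1.Y.Q) :=
    (j2.noncommCoprod j1 hcomm).comp (Ψ.prod (E1.Y.Ψ.comp π))
  have e5 : ∀ u, (Ξ0 u).left = r2 (Ψ u).left * r1 (E1.Y.Ψ (π u)).left := fun u => e4 _ _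
  obtain ⟨Ξ, f1, f2⟩ := E2.H_lift Ξ0 (inl (gen Γ V3.c)) (fun k => comm_inl (by
    rw [e5, h1 _ (E2.mem_K k), map_one, one_left, map_one, mul_one]
    exact map_par r2 _ (fun v hv => by
      simp only [r2, rmap_gen]; exact gen_mem_par hv) (h2 _ (E2.mem_K k))) rfl)
  let p1 : RAAG Γ →* RAAG E1.Y.Γ := rlift (fun x => match x with
    | .b v => gen _ v
    | _ => 1) (by
      rintro (u | u | _) (v | v | _) h <;> first | exact gen_comm h | simp)
  let p2 : RAAG Γ →* RAAG E2.Y.Γ := rlift (fun x => match x with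
    | .a v => gen _ v
    | _ => 1) (by
      rintro (u | u | _) (v | v | _) h <;> first | exact gen_comm h | simp)
  have g11 : p1.comp r1 = MonoidHom.id _ := rhom_ext fun v => by simp [p1, r1]
  have g12 : p1.comp r2 = 1 := rhom_ext fun v => by simp [p1, r2]
  have g21 : p2.comp r1 = 1 := rhom_ext fun v => by simp [p2, r1]
  have g22 : p2.comp r2 = MonoidHom.id _ := rhom_ext fun v => by simp [p2, r2]
  have g1 : ∀ u, p1 (Ξ0 u).left = (E1.Y.Ψ (π u)).left := fun u => by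
    rw [e5, map_mul, ← MonoidHom.comp_apply, ← MonoidHom.comp_apply, g11, g12]; simp
  have g2 : ∀ u, p2 (Ξ0 u).left = (Ψ u).left := fun u => by
    rw [e5, map_mul, ← MonoidHom.comp_apply, ← MonoidHom.comp_apply, g21, g22]; simp
  have g3 : ∀ u, (Ξ0 u).left ∈ par Γ (Γ.neighborSet V3.c) → u ∈ E2.K := by
    intro u hu
    refine h3 u ?_ (E1.Y.faithful _ ?_)
    · rw [← g2]
      refine map_par p2 _ ?_ hu
      rintro (v | v | _) hv
      · simp only [p2, rlift_gen]; exact gen_mem_par hv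
      · exact hv.elim
      · exact hv.elim
    · rw [← g1]
      refine map_par p1 ⊥ ?_ hu
      rintro (v | v | _) hv
      · simp [p1]
      · exact hv.elim
      · exact hv.elim
  refine ⟨_, inferInstance, Γ, E2.Y.Q × E1.Y.Q, inferInstance, inferInstance, inferInstance,
    inferInstance, Ξ, fun h hh => ?_⟩
  have g4 := stable_lemma Ξ E2.ιH.range E2.v
    (E2.H_gen _ (fun g => Subgroup.subset_closure (Or.inl ⟨g, rfl⟩))
      (Subgroup.subset_closure (Or.inr rfl))) {V3.c}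
    (by rintro g (v | v | _) <;> simp) V3.c rfl (fun x (hx : Γ.Adj V3.c x) (h : x = V3.c) => hx.ne h.symm)
    (by
      rintro _ ⟨u, rfl⟩
      rw [f1, e5]
      exact mul_mem (map_par r2 _ (fun v _ => by
          simp only [r2, rmap_gen]; exact gen_mem_par (by simp)) (mem_par_univ _))
        (map_par r1 _ (fun v _ => by
          simp only [r1, rmap_gen]; exact gen_mem_par (by simp)) (mem_par_univ _)))
    1 (one_mem _) (by simp [f2]) rfl
    (by
      rintro _ ⟨u, rfl⟩ hu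
      rw [f1] at hu
      have := E2.v_comm (g3 u hu)
      exact ⟨⟨u, by rw [this.eq]; simp⟩, ⟨u, by rw [mul_assoc, ← this.eq]; simp⟩⟩)
    h (by rw [hh]; exact one_mem _)
  obtain ⟨u, rfl⟩ := g4
  rw [f1] at hh
  rw [h4 u (g3 u (by rw [hh]; exact one_mem _)) (by rw [← g2, hh, map_one]), map_one]

end tower

end Pool.Agent.Lib.MP_8cfc4a_al
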