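import Pool.Agent.Lib.MP_8cfc4a_al.Rips

/-!
The output of the Rips type construction.
-/

namespace Pool.Agent.Lib.MP_8cfc4a_al

open SemidirectProduct

/-- The properties of the extension. -/
structure Ext {X : Sp} (D : RD X) where
  Y : Sp
  ι : X.G →* Y.G
  Kk : Type
  [finK : Finite Kk]
  kl : Kk → Y.S
  kty : Kk → Fin 3
  k1 : Kk
  hk1 : kty k1 = 1
  hgen : ∀ K : Subgroup Y.G, (∀ g, ι g ∈ K) → (∀ k, Y.val (kl k) ∈ K) → K = ⊤
  norm : ∀ c ε k, bp (ι (X.val (D.cl c))) ε * Y.val (kl k) * (bp (ι (X.val (D.cl c))) ε)⁻¹ ∈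
    Subgroup.closure (Set.range fun k => Y.val (kl k))
  up1 : ∀ (W : Type) [Group W] (μ : X.G →* W) (α : Fin 3 → W), α 0 = 1 →
    (∀ c ε τ, bp (μ (X.val (D.cl c))) ε * α τ * (bp (μ (X.val (D.cl c))) ε)⁻¹ =
      bp (α (D.tbl c ε τ).1) ε * α (D.tbl c ε τ).2.1 * (bp (α (D.tbl c ε τ).2.2) ε)⁻¹) →
    ∃ f : Y.G →* W, (∀ g, f (ι g) = μ g) ∧ ∀ k, f (Y.val (kl k)) = α (kty k)
  up2 : ∀ (W : Type) [Group W] (f : Y.G →* W) (μ : X.G →* W),
    (∀ c, μ (X.val (D.cl c)) = f (ι (X.val (D.cl c)))) →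
    ∃ f' : Y.G →* W, (∀ g, f' (ι g) = μ g) ∧ ∀ k, f' (Y.val (kl k)) = f (Y.val (kl k))
  z : Y.V
  Z : Set Y.V
  hZ : ∀ (g : Y.Q) v, g • v ∈ Z ↔ v ∈ Z
  hz : z ∈ Z
  hy : ∀ s, Y.y s ∉ Z
  hlk : Y.Γ.neighborSet z ⊆ Zᶜ
  hι1 : ∀ g, (Y.Ψ (ι g)).left ∈ par Y.Γ (Y.Γ.neighborSet z)
  hι2 : ∀ g, (Y.Ψ (ι g)).right • z = z
  conv : ∀ u, (Y.Ψ u).left ∈ par Y.Γ (Y.Γ.neighborSet z) → u ∈ ι.range

attribute [instance] Ext.finK

namespace RD
variable {X : Sp} (D : RD X)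

/-- the group -/
abbrev U : Type := D.strip.U
/-- letters of `C` -/
noncomputable def cv (c : D.C) : D.U := D.strip.ι (X.val (D.cl c))
/-- new horizontal letters -/
noncomputable def av (a : D.A) : D.U := D.strip.av a
/-- vertical letters -/
noncomputable def tv (j : D.J) (v : Vx D.C X.Q) : D.U := D.strip.tv (j, v)

theorem sq_d (j i h c) : D.av (.d c) * D.tv j (.u i h c) = D.tv j (.b i h) * D.av (.d c) :=
  D.strip.square (j, .dE i h c)
theorem sq_c (j i h c) : D.cv c * D.tv j (.u' i h c) = D.tv j (.u i h c) * D.cv c :=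
  D.strip.square (j, .cE i h c)
theorem sq_e (j i h c) :
    D.av (.e c) * D.tv j (.u' i h c) = D.tv j (.b i (h * D.sc c)) * D.av (.e c) :=
  D.strip.square (j, .eE i h c)
theorem sq_p (j) : D.av .p * D.tv j .n1 = D.tv j (.b false 1) * D.av .p :=
  D.strip.square (j, .pE)
theorem sq_12 (j : D.J) :
    bp (D.cv j.1) j.2.1 * D.tv j .n2 = D.tv j .n1 * bp (D.av (D.w1 j)) j.2.1 := by
  obtain ⟨c, _ | _, a⟩ := j
  · have : D.cv c * D.tv (c, false, a) .n1 = D.tv (c, false, a) .n2 * D.av (D.w1 (c, false, a)) :=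
      D.strip.square ((c, false, a), .e12)
    simp only [bp_false]
    rw [inv_mul_eq_iff_eq_mul, ← mul_assoc, this]; simp
  · exact D.strip.square ((c, true, a), .e12)
theorem sq_23 (j : D.J) : D.av j.2.2 * D.tv j .n3 = D.tv j .n2 * D.av (D.w2 j) :=
  D.strip.square (j, .e23)
theorem sq_34 (j : D.J) :
    bp (D.cv j.1) j.2.1 * D.tv j .n3 = D.tv j (.b true 1) * bp (D.av (D.w3 j)) j.2.1 := by
  obtain ⟨c, _ | _, a⟩ := j
  · have : D.cv c * D.tv (c, false, a) (.b true 1) =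
        D.tv (c, false, a) .n3 * D.av (D.w3 (c, false, a)) :=
      D.strip.square ((c, false, a), .e34)
    simp only [bp_false]
    rw [inv_mul_eq_iff_eq_mul, ← mul_assoc, this]; simp
  · exact D.strip.square ((c, true, a), .e34)

/-- generators of the normalised subgroup -/
abbrev Kk : Type := D.A ⊕ (D.J × Bool × X.Q)

/-- their letters -/
def kl : D.Kk → D.strip.sp.S
  | .inl a => .inl (.inr a)
  | .inr x => .inr (x.1, .b x.2.1 x.2.2)

/-- the normalised subgroup -/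
noncomputable def K : Subgroup D.U :=
  Subgroup.closure (Set.range fun k => D.strip.val' (D.kl k))

theorem av_mem (a) : D.av a ∈ D.K := Subgroup.subset_closure ⟨.inl a, rfl⟩
theorem tb_mem (j i h) : D.tv j (.b i h) ∈ D.K := Subgroup.subset_closure ⟨.inr (j, i, h), rfl⟩
theorem tu_mem (j i h c) : D.tv j (.u i h c) ∈ D.K := by
  rw [eq_inv_mul_of_mul_eq (D.sq_d j i h c)]
  exact mul_mem (inv_mem (D.av_mem _)) (mul_mem (D.tb_mem _ _ _) (D.av_mem _))
theorem tu'_mem (j i h c) : D.tv j (.u' i h c) ∈ D.K := by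
  rw [eq_inv_mul_of_mul_eq (D.sq_e j i h c)]
  exact mul_mem (inv_mem (D.av_mem _)) (mul_mem (D.tb_mem _ _ _) (D.av_mem _))
theorem tn1_mem (j) : D.tv j .n1 ∈ D.K := by
  rw [eq_inv_mul_of_mul_eq (D.sq_p j)]
  exact mul_mem (inv_mem (D.av_mem _)) (mul_mem (D.tb_mem _ _ _) (D.av_mem _))

theorem norm_av (c ε a) : bp (D.cv c) ε * D.av a * (bp (D.cv c) ε)⁻¹ ∈ D.K := by
  have h1 := D.sq_12 (c, ε, a)
  have h2 := D.sq_23 (c, ε, a)
  have h3 := D.sq_34 (c, ε, a)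
  simp only at h1 h2 h3
  have : bp (D.cv c) ε * D.av a * (bp (D.cv c) ε)⁻¹ =
      D.tv (c, ε, a) .n1 * bp (D.av (D.w1 (c, ε, a))) ε * D.av (D.w2 (c, ε, a)) *
        (D.tv (c, ε, a) (.b true 1) * bp (D.av (D.w3 (c, ε, a))) ε)⁻¹ := by
    rw [← h1, ← h3, mul_assoc (bp _ _) (D.tv _ _), ← h2]
    group
  rw [this]
  exact mul_mem (mul_mem (mul_mem (D.tn1_mem _) (bp_mem (D.av_mem _) _)) (D.av_mem _))
    (inv_mem (mul_mem (D.tb_mem _ _ _) (bp_mem (D.av_mem _) _)))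

theorem norm_tb (c ε j i h) :
    bp (D.cv c) ε * D.tv j (.b i h) * (bp (D.cv c) ε)⁻¹ ∈ D.K := by
  cases ε
  · have h1 := D.sq_d j i h c
    have h2 := D.sq_c j i h c
    have h3 := D.norm_av c false (.d c)
    simp only [bp_false, inv_inv] at h3 ⊢
    have : (D.cv c)⁻¹ * D.tv j (.b i h) * D.cv c = ((D.cv c)⁻¹ * D.av (.d c) * D.cv c) *
        D.tv j (.u' i h c) * ((D.cv c)⁻¹ * D.av (.d c) * D.cv c)⁻¹ := by
      rw [eq_mul_inv_of_mul_eq h1.symm, eq_inv_mul_of_mul_eq h2]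
      group
    rw [this]
    exact mul_mem (mul_mem h3 (D.tu'_mem _ _ _ _)) (inv_mem h3)
  · have h1 := D.sq_e j i (h * (D.sc c)⁻¹) c
    have h2 := D.sq_c j i (h * (D.sc c)⁻¹) c
    have h3 := D.norm_av c true (.e c)
    rw [inv_mul_cancel_right] at h1
    simp only [bp_true] at h3 ⊢
    have : D.cv c * D.tv j (.b i h) * (D.cv c)⁻¹ = (D.cv c * D.av (.e c) * (D.cv c)⁻¹) *
        D.tv j (.u i (h * (D.sc c)⁻¹) c) * (D.cv c * D.av (.e c) * (D.cv c)⁻¹)⁻¹ := by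
      rw [eq_mul_inv_of_mul_eq h1.symm, eq_mul_inv_of_mul_eq h2.symm]
      group
    rw [this]
    exact mul_mem (mul_mem h3 (D.tu_mem _ _ _ _)) (inv_mem h3)

theorem U_gen (K : Subgroup D.U) (h1 : ∀ g, D.strip.ι g ∈ K) (h2 : D.K ≤ K) : K = ⊤ := by
  refine D.strip.U_gen K h1 (fun a => h2 (D.av_mem a)) ?_
  rintro ⟨j, v⟩
  change D.tv j v ∈ K
  cases v with
  | b i h => exact h2 (D.tb_mem _ _ _)
  | u i h c => exact h2 (D.tu_mem _ _ _ _)
  | u' i h c => exact h2 (D.tu'_mem _ _ _ _)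
  | n1 => exact h2 (D.tn1_mem _)
  | n2 =>
    rw [eq_inv_mul_of_mul_eq (D.sq_12 j)]
    exact mul_mem (inv_mem (bp_mem (h1 _) _))
      (h2 (mul_mem (D.tn1_mem _) (bp_mem (D.av_mem _) _)))
  | n3 =>
    rw [eq_inv_mul_of_mul_eq (D.sq_34 j)]
    exact mul_mem (inv_mem (bp_mem (h1 _) _))
      (h2 (mul_mem (D.tb_mem _ _ _) (bp_mem (D.av_mem _) _)))

/-- images of the vertical letters -/
def timg {W : Type} [Group W] (μ : X.G →* W) (α : Fin 3 → W) (j : D.J) : Vx D.C X.Q → W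
  | .n2 => (bp (μ (X.val (D.cl j.1))) j.2.1)⁻¹ * bp (α (D.ty (D.w1 j))) j.2.1
  | .n3 => (bp (μ (X.val (D.cl j.1))) j.2.1)⁻¹ * bp (α (D.ty (D.w3 j))) j.2.1
  | _ => 1

/-- The extension. -/
noncomputable def ext : Ext D where
  Y := D.strip.sp
  ι := D.strip.ι
  Kk := D.Kk
  kl := D.kl
  kty := Sum.elim D.ty (fun _ => 0)
  k1 := .inl (.w 0 1 D.l0)
  hk1 := rfl
  hgen K h1 h2 := D.U_gen K h1 ((Subgroup.closure_le _).2 (by rintro _ ⟨k, rfl⟩; exact h2 k))
  norm c ε := by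
    rintro (a | ⟨j, i, h⟩)
    · exact D.norm_av c ε a
    · exact D.norm_tb c ε j i h
  up1 W _ μ α h0 h := by
    obtain ⟨f, h1, h2, h3⟩ := D.strip.exists_lift μ (fun a => α (D.ty a))
      (fun v => D.timg μ α v.1 v.2) (by
        rintro ⟨⟨c, ε, a⟩, e⟩
        have h4 := h c ε (D.ty a)
        cases e with
        | dE i g c' => simp [strip, lt, src, dst, timg]
        | cE i g c' => simp [strip, lt, src, dst, timg]
        | eE i g c' => simp [strip, lt, src, dst, timg]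
        | pE => simp [strip, lt, src, dst, timg]
        | e12 => cases ε <;> simp [strip, lt, src, dst, timg]
        | e23 =>
          simp only [strip, lt, src, dst, timg, cond_true, cond_false, Sum.elim_inr]
          have e1 : α (D.ty (D.w1 (c, ε, a))) = α (D.tbl c ε (D.ty a)).1 := rfl
          have e2 : α (D.ty (D.w2 (c, ε, a))) = α (D.tbl c ε (D.ty a)).2.1 := rfl
          have e3 : α (D.ty (D.w3 (c, ε, a))) = α (D.tbl c ε (D.ty a)).2.2 := rfl
          rw [e1, e2, e3, mul_assoc (_⁻¹), eq_inv_mul_iff_mul_eq, ← mul_assoc, ← mul_assoc, h4]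
          simp
        | e34 => cases ε <;> simp [strip, lt, src, dst, timg])
    refine ⟨f, h1, ?_⟩
    rintro (a | ⟨j, i, g⟩)
    · exact h2 a
    · exact (h3 (j, .b i g)).trans h0.symm
  up2 W _ f μ h := by
    obtain ⟨f', h1, h2, h3⟩ := D.strip.exists_lift μ (fun a => f (D.strip.av a))
      (fun v => f (D.strip.tv v)) (by
        intro e
        have h4 : ∀ b, Sum.elim (fun s => μ (X.val s)) (fun a => f (D.strip.av a))
            (D.strip.lt b e) = f (D.strip.hv (D.strip.lt b e)) := by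
          obtain ⟨j, e⟩ := e
          intro b
          cases e <;> cases b <;> first | rfl | exact h _
        rw [h4, h4]
        exact ((map_mul f _ _).symm.trans (congrArg f (D.strip.square e))).trans (map_mul f _ _))
    refine ⟨f', h1, ?_⟩
    rintro (a | ⟨j, i, g⟩)
    · exact h2 a
    · exact h3 (j, .b i g)
  z := D.strip.z
  Z := D.strip.Z
  hZ := D.strip.Z_smul
  hz := trivial
  hy := D.strip.y_not_Z
  hlk x hx := by
    obtain ⟨v, rfl⟩ := (D.strip.nb_z x).1 hx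
    exact id
  hι1 g := by
    have h1 : (D.strip.μ0 (X.Ψ g)).left ∈
        par D.strip.Γ' (D.strip.Γ'.neighborSet D.strip.z) :=
      map_par (rmap _ _) _ (fun v _ => by
        rw [rmap_gen]; exact gen_mem_par ((D.strip.nb_z _).2 ⟨v, rfl⟩)) (mem_par_univ _)
    exact D.strip.sp_Ψ_ι g ▸ h1
  hι2 g := by
    have h1 : (D.strip.μ0 (X.Ψ g)).right • D.strip.z = D.strip.z := by
      change D.strip.emb (1, _) • D.strip.z = D.strip.z
      simp [Strip.z]
    exact D.strip.sp_Ψ_ι g ▸ h1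
  conv := D.strip.convex

end RD

end Pool.Agent.Lib.MP_8cfc4a_al
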