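import Mathlib

/-!
A permutation model of a doubly exponentially distorted subgroup.
-/

namespace Pool.Agent.Lib.MP_8cfc4a_al

/-- The Fibonacci matrix. -/
def fA : (ℤ × ℤ) ≃ₗ[ℤ] (ℤ × ℤ) where
  toFun w := (w.1 + w.2, w.1)
  invFun w := (w.2, w.1 - w.2)
  map_add' a b := by ext <;> simp; ring
  map_smul' c a := by ext <;> simp; ring
  left_inv w := by ext <;> simp
  right_inv w := by ext <;> simp

theorem fA_pow (n : ℕ) : (fA ^ n) (1, 0) = ((Nat.fib (n + 1) : ℤ), (Nat.fib n : ℤ)) := by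
  induction n with
  | zero => simp
  | succ n ih =>
    rw [pow_succ', LinearEquiv.mul_apply, ih, Nat.fib_add_two]
    simp [fA, add_comm]

/-- The set acted on. -/
abbrev Om : Type := ℤ × (ℤ × ℤ)

/-- shift -/
def xb : Equiv.Perm Om where
  toFun ω := (ω.1 + 1, ω.2)
  invFun ω := (ω.1 - 1, ω.2)
  left_inv ω := by simp
  right_inv ω := by simp

/-- middle level -/
def cb : Multiplicative (ℤ × ℤ) →* Equiv.Perm Om :=
  MonoidHom.toHomPerm
    { toFun c := fun ω => (ω.1, (fA ^ ((fA ^ (-ω.1)) c.toAdd).1) ω.2)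
      map_one' := by funext ω; simp [Function.End.one_def]
      map_mul' a b := by
        funext ω
        simp [Function.End.mul_def, zpow_add] }

theorem cb_apply (c : ℤ × ℤ) (ω : Om) :
    cb (Multiplicative.ofAdd c) ω = (ω.1, (fA ^ ((fA ^ (-ω.1)) c).1) ω.2) := rfl

/-- bottom level -/
def ab : Multiplicative (ℤ × ℤ) →* Equiv.Perm Om :=
  MonoidHom.toHomPerm
    { toFun a := fun ω => (ω.1, if ω.1 = 0 then ω.2 + a.toAdd else ω.2)
      map_one' := by funext ω; simp [Function.End.one_def]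
      map_mul' a b := by
        funext ω
        simp only [Function.End.mul_def, toAdd_mul, Function.comp_apply]
        split_ifs
        · simp; abel
        · rfl }

theorem ab_apply (a : ℤ × ℤ) (ω : Om) :
    ab (Multiplicative.ofAdd a) ω = (ω.1, if ω.1 = 0 then ω.2 + a else ω.2) := rfl

theorem xb_cb (c : ℤ × ℤ) :
    xb * cb (Multiplicative.ofAdd c) * xb⁻¹ = cb (Multiplicative.ofAdd (fA c)) := by
  rw [mul_inv_eq_iff_eq_mul]
  refine Equiv.ext fun ω => ?_
  have : (fA ^ (-(ω.1 + 1))) (fA c) = (fA ^ (-ω.1)) c := by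
    rw [← LinearEquiv.mul_apply, ← zpow_add_one]; simp
  simp only [Equiv.Perm.mul_apply, cb_apply, xb, Equiv.coe_fn_mk, this]

theorem cb_ab (c a : ℤ × ℤ) :
    cb (Multiplicative.ofAdd c) * ab (Multiplicative.ofAdd a) * (cb (Multiplicative.ofAdd c))⁻¹ =
      ab (Multiplicative.ofAdd ((fA ^ c.1) a)) := by
  rw [mul_inv_eq_iff_eq_mul]
  refine Equiv.ext fun ω => ?_
  simp only [Equiv.Perm.mul_apply, cb_apply, ab_apply]
  split_ifs with h
  · simp [h]
  · rfl

theorem xb_pow_cb (n : ℕ) (c : ℤ × ℤ) :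
    xb ^ n * cb (Multiplicative.ofAdd c) * (xb ^ n)⁻¹ = cb (Multiplicative.ofAdd ((fA ^ n) c)) := by
  induction n with
  | zero => simp
  | succ n ih =>
    rw [pow_succ' fA, LinearEquiv.mul_apply, ← xb_cb, ← ih, pow_succ']
    simp [mul_assoc]

/-- the additive function on the bottom level -/
def ph (k : Equiv.Perm Om) : ℤ := (k (0, 0)).2.1

/-- its extension -/
noncomputable def pht (p : Equiv.Perm Om) : ℤ :=
  (p (Classical.epsilon fun ω => (p ω).1 = 0)).2.1

theorem ph_ab (a : ℤ × ℤ) : ph (ab (Multiplicative.ofAdd a)) = a.1 := by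
  simp [ph, ab_apply]

theorem pht_mul (k) (hk : k ∈ ab.range) (p) : pht (k * p) = ph k + pht p := by
  obtain ⟨a, rfl⟩ := hk
  obtain ⟨a, rfl⟩ := Multiplicative.ofAdd.surjective a
  have h1 : (fun ω => ((ab (Multiplicative.ofAdd a) * p) ω).1 = 0) = fun ω => (p ω).1 = 0 := rfl
  have h2 := Classical.epsilon_spec (p := fun ω => (p ω).1 = 0) ⟨p⁻¹ (0, 0), by simp⟩
  simp only [pht, h1, ph_ab]
  simp [ab_apply, h2, add_comm]

theorem two_pow_le_fib (k : ℕ) : 2 ^ k ≤ Nat.fib (2 * k + 1) := by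
  induction k with
  | zero => simp
  | succ k ih =>
    have h1 : Nat.fib (2 * k + 1) ≤ Nat.fib (2 * k + 1 + 1) := Nat.fib_le_fib_succ
    have h2 : Nat.fib (2 * k + 1 + 2) = Nat.fib (2 * k + 1) + Nat.fib (2 * k + 1 + 1) :=
      Nat.fib_add_two
    rw [show 2 * (k + 1) + 1 = 2 * k + 1 + 2 by ring, pow_succ]
    omega

theorem tower_le (m k : ℕ) (hm : 1 ≤ m) :
    2 ^ 2 ^ k ≤ m * Nat.fib (m * Nat.fib (m * (2 * k + 2) + 1) + 1) := by
  have h1 : 2 * 2 ^ k ≤ m * Nat.fib (m * (2 * k + 2) + 1) := by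
    have h2 := two_pow_le_fib (k + 1)
    have h3 : Nat.fib (2 * (k + 1) + 1) ≤ Nat.fib (m * (2 * k + 2) + 1) :=
      Nat.fib_mono (by nlinarith)
    rw [pow_succ] at h2
    nlinarith
  have h4 := two_pow_le_fib (2 ^ k)
  have h5 : Nat.fib (2 * 2 ^ k + 1) ≤ Nat.fib (m * Nat.fib (m * (2 * k + 2) + 1) + 1) :=
    Nat.fib_mono (by omega)
  nlinarith

end Pool.Agent.Lib.MP_8cfc4a_al
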