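import Mathlib

/-!
Finite index subgroups of finitely presented groups are finitely presented.
-/

namespace Pool.Agent.Lib.MP_8cfc4a_al

theorem finite_of_fg_freeGroup {α : Type} [h : Group.FG (FreeGroup α)] : Finite α := by
  classical
  let χ : α → FreeGroup α →* Multiplicative ℤ := fun a =>
    FreeGroup.lift fun b => if b = a then Multiplicative.ofAdd 1 else 1
  have h1 : ∀ w, {a | χ a w ≠ 1}.Finite := by
    intro w
    induction w using FreeGroup.induction_on with
    | C1 => simp
    | of b =>
      refine (Set.finite_singleton b).subset fun a ha => ?_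
      by_contra hb
      exact ha (by simp [χ, Ne.symm hb])
    | inv_of b hb => simpa using hb
    | mul x y hx hy =>
      refine (hx.union hy).subset fun a ha => ?_
      by_contra hb
      simp only [Set.mem_union, Set.mem_ofPred_eq, not_or, not_not] at hb
      exact ha (by simp [hb.1, hb.2])
  obtain ⟨T, hT, hfin⟩ := Group.fg_iff.1 h
  have h2 := hfin.biUnion (fun w _ => h1 w)
  refine Set.finite_univ_iff.1 (h2.subset fun a _ => ?_)
  by_contra ha
  simp only [Set.mem_iUnion, Set.mem_ofPred_eq, exists_prop, not_exists, not_and, not_not] at ha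
  have h3 : (⊤ : Subgroup (FreeGroup α)) ≤ (χ a).ker := by
    rw [← hT, Subgroup.closure_le]; exact ha
  have h4 : χ a (FreeGroup.of a) = 1 := h3 trivial
  simp [χ] at h4

theorem fp_of_finiteIndex {G : Type} [Group G] (hG : Group.IsFinitelyPresented G)
    (H : Subgroup G) [H.FiniteIndex] : Group.IsFinitelyPresented H := by
  obtain ⟨n, φ, hφ, S, hS, hker⟩ := hG
  let F0 := H.comap φ
  have : F0.FiniteIndex := ⟨by rw [Subgroup.index_comap_of_surjective _ hφ]; exact H.index_ne_zero_of_finite⟩
  have h1 : Group.FG (FreeGroup (IsFreeGroup.Generators F0)) :=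
    Group.fg_of_surjective (f := (IsFreeGroup.toFreeGroup F0).toMonoidHom)
      (IsFreeGroup.toFreeGroup F0).surjective
  have h2 : Finite (IsFreeGroup.Generators F0) := finite_of_fg_freeGroup
  have h3 : Group.IsFinitelyPresented F0 :=
    Group.IsFinitelyPresented.equiv (IsFreeGroup.toFreeGroup F0).symm
  refine Group.IsFinitelyPresented.of_surjective (φ.subgroupComap H)
    (φ.subgroupComap_surjective_of_surjective H hφ) ?_
  let T : Set (FreeGroup (Fin n)) := Set.range fun q : FreeGroup (Fin n) ⧸ F0 => (q.out)⁻¹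
  have hT : ∀ f, ∃ t ∈ T, f * t⁻¹ ∈ F0 := by
    intro f
    refine ⟨_, ⟨(f⁻¹ : FreeGroup (Fin n)), rfl⟩, ?_⟩
    have := QuotientGroup.eq.1 (QuotientGroup.out_eq' ((f⁻¹ : FreeGroup (Fin n)) :
      FreeGroup (Fin n) ⧸ F0)).symm
    simpa using this
  refine ⟨Subtype.val ⁻¹' Set.image2 (fun t s => t * s * t⁻¹) T S,
    ((Set.finite_range _).image2 _ hS).preimage Subtype.val_injective.injOn, le_antisymm ?_ ?_⟩
  · refine Subgroup.normalClosure_le_normal ?_
    rintro x ⟨t, -, s, hs, h⟩
    have h4 : φ s = 1 := by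
      have : s ∈ φ.ker := hker ▸ Subgroup.subset_normalClosure hs
      exact this
    apply Subtype.ext
    change φ x = 1
    rw [← h]; simp [h4]
  · intro x hx
    have h4 : x.1 ∈ Subgroup.normalClosure S := by
      rw [hker]; exact congrArg Subtype.val hx
    have h5 : Subgroup.normalClosure S ≤ (Subgroup.normalClosure
        (Subtype.val ⁻¹' Set.image2 (fun t s => t * s * t⁻¹) T S : Set F0)).map F0.subtype := by
      refine (Subgroup.closure_le _).2 fun y hy => ?_
      obtain ⟨s, hs, hy⟩ := Group.mem_conjugatesOfSet_iff.1 hy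
      obtain ⟨f, rfl⟩ := isConj_iff.1 hy
      obtain ⟨t, ht, hf⟩ := hT f
      have h6 : φ s = 1 := by
        have : s ∈ φ.ker := hker ▸ Subgroup.subset_normalClosure hs
        exact this
      have h7 : t * s * t⁻¹ ∈ F0 := by simp [F0, h6]
      refine ⟨⟨_, hf⟩ * ⟨_, h7⟩ * (⟨_, hf⟩ : F0)⁻¹, Subgroup.normalClosure_normal.conj_mem _
        (Subgroup.subset_normalClosure ?_) _, ?_⟩
      · exact ⟨t, ht, s, hs, rfl⟩
      · simp [mul_assoc]
    obtain ⟨y, hy, h⟩ := h5 h4
    exact (Subtype.ext h : y = x) ▸ hy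

end Pool.Agent.Lib.MP_8cfc4a_al
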