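import Pool.Agent.Lib.MP_8cfc4a_al.Defs

/-!
A lower bound for the Dehn function.
-/

namespace Pool.Agent.Lib.MP_8cfc4a_al

/-- Integer valued functions on a group, extended by the group. -/
@[ext] structure FW (P : Type) where
  f : P → ℤ
  g : P

namespace FW
variable {P : Type} [Group P]

instance : Mul (FW P) := ⟨fun a b => ⟨fun p => a.f p + b.f (p * a.g), a.g * b.g⟩⟩
instance : One (FW P) := ⟨⟨fun _ => 0, 1⟩⟩
instance : Inv (FW P) := ⟨fun a => ⟨fun p => -a.f (p * a.g⁻¹), a.g⁻¹⟩⟩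
@[simp] theorem mul_f (a b : FW P) (p) : (a * b).f p = a.f p + b.f (p * a.g) := rfl
@[simp] theorem mul_g (a b : FW P) : (a * b).g = a.g * b.g := rfl
@[simp] theorem one_f (p) : (1 : FW P).f p = 0 := rfl
@[simp] theorem one_g : (1 : FW P).g = 1 := rfl
@[simp] theorem inv_f (a : FW P) (p) : (a⁻¹).f p = -a.f (p * a.g⁻¹) := rfl
@[simp] theorem inv_g (a : FW P) : (a⁻¹).g = a.g⁻¹ := rfl

instance : Group (FW P) := Group.ofLeftAxioms
  (fun a b c => by ext <;> simp [mul_assoc, add_assoc])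
  (fun a => by ext <;> simp)
  (fun a => by ext <;> simp)

/-- projection -/
def proj : FW P →* P where
  toFun a := a.g
  map_one' := rfl
  map_mul' _ _ := rfl

/-- section -/
def sec : P →* FW P where
  toFun g := ⟨fun _ => 0, g⟩
  map_one' := rfl
  map_mul' _ _ := by ext <;> simp

end FW

section tame
variable {P : Type} [Group P] (K : Subgroup P)

/-- finitely supported modulo `K`, in a weak form -/
def Tame (f : P → ℤ) : Prop :=
  ∀ g : P → ℤ, (∀ k ∈ K, ∀ p, g (k * p) = g p) → ∃ B : ℤ, ∀ p, |g p * f p| ≤ B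

/-- tame elements -/
def tameSub : Subgroup (FW P) where
  carrier := {a | Tame K a.f}
  one_mem' := fun g _ => ⟨0, by simp⟩
  mul_mem' := by
    intro a b ha hb g hg
    obtain ⟨B, hB⟩ := ha g hg
    obtain ⟨B', hB'⟩ := hb (fun q => g (q * a.g⁻¹)) (fun k hk p => by rw [mul_assoc, hg k hk])
    refine ⟨B + B', fun p => ?_⟩
    have := hB' (p * a.g)
    simp only [mul_inv_cancel_right] at this
    rw [FW.mul_f, mul_add]
    exact (abs_add_le _ _).trans (add_le_add (hB p) this)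
  inv_mem' := by
    intro a ha g hg
    obtain ⟨B, hB⟩ := ha (fun q => g (q * a.g)) (fun k hk p => by rw [mul_assoc, hg k hk])
    refine ⟨B, fun p => ?_⟩
    have := hB (p * a.g⁻¹)
    simp only [inv_mul_cancel_right] at this
    rw [FW.inv_f, mul_neg, abs_neg]
    exact this

end tame

section dehn
variable {S : Type} {R : Set (FreeGroup S)}

theorem AreaLE.mono {w : FreeGroup S} {N N' : ℕ} (h : AreaLE R w N) (h' : N ≤ N') :
    AreaLE R w N' := by
  obtain ⟨L, h1, h2⟩ := h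
  exact ⟨L, h1.trans h', h2⟩

theorem exists_area {w : FreeGroup S} (h : PresentedGroup.mk R w = 1) : ∃ N, AreaLE R w N := by
  rw [PresentedGroup.mk_eq_one_iff] at h
  induction h using Subgroup.closure_induction with
  | mem x hx =>
    obtain ⟨r, hr, hx⟩ := Group.mem_conjugatesOfSet_iff.1 hx
    obtain ⟨u, rfl⟩ := isConj_iff.1 hx
    exact ⟨1, [(u, r)], le_rfl, by simp [hr], by simp⟩
  | one => exact ⟨0, [], le_rfl, by simp, by simp⟩
  | mul x y _ _ hx hy =>
    obtain ⟨N, L, h1, h2, rfl⟩ := hx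
    obtain ⟨N', L', h1', h2', rfl⟩ := hy
    refine ⟨N + N', L ++ L', by simp; omega, ?_, by simp⟩
    intro p hp
    rcases List.mem_append.1 hp with hp | hp
    exacts [h2 p hp, h2' p hp]
  | inv x _ hx =>
    obtain ⟨N, L, h1, h2, rfl⟩ := hx
    refine ⟨N, (L.map fun p => (p.1, p.2⁻¹)).reverse, by simpa using h1, ?_, ?_⟩
    · intro p hp
      simp only [List.mem_reverse, List.mem_map] at hp
      obtain ⟨q, hq, rfl⟩ := hp
      simpa [or_comm] using h2 q hq
    · rw [List.prod_inv_reverse]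
      simp [List.map_reverse, Function.comp_def, mul_assoc]

theorem dehn_spec [Finite S] (n : ℕ) (w : List (S × Bool)) (hw : w.length ≤ n)
    (h : PresentedGroup.mk R (FreeGroup.mk w) = 1) : AreaLE R (FreeGroup.mk w) (dehn R n) := by
  have hne : {N : ℕ | ∀ w : List (S × Bool), w.length ≤ n →
      PresentedGroup.mk R (FreeGroup.mk w) = 1 → AreaLE R (FreeGroup.mk w) N}.Nonempty := by
    have h1 : ∀ w : List (S × Bool), ∃ N, PresentedGroup.mk R (FreeGroup.mk w) = 1 →
        AreaLE R (FreeGroup.mk w) N := by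
      intro w
      by_cases h : PresentedGroup.mk R (FreeGroup.mk w) = 1
      · obtain ⟨N, hN⟩ := exists_area h
        exact ⟨N, fun _ => hN⟩
      · exact ⟨0, fun h' => absurd h' h⟩
    choose N hN using h1
    obtain ⟨M, hM⟩ := ((List.finite_length_le (S × Bool) n).image N).bddAbove
    exact ⟨M, fun w hw h => (hN w h).mono (hM ⟨w, hw, rfl⟩)⟩
  exact Nat.sInf_mem hne w hw h

theorem dehn_mono [Finite S] : Monotone (dehn R) := fun _ _ h =>
  Nat.sInf_le fun w hw h' => dehn_spec _ w (hw.trans h) h'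

/-- `g` is represented by a word of length at most `n` -/
def Len (R : Set (FreeGroup S)) (g : PresentedGroup R) (n : ℕ) : Prop :=
  ∃ w : List (S × Bool), w.length ≤ n ∧ PresentedGroup.mk R (FreeGroup.mk w) = g

theorem exists_len (g : PresentedGroup R) : ∃ n, Len R g n := by
  obtain ⟨w, rfl⟩ := PresentedGroup.mk_surjective R g
  induction w using Quot.ind with
  | mk w => exact ⟨_, w, le_rfl, rfl⟩

theorem Len.mul {g h : PresentedGroup R} {n m} (h1 : Len R g n) (h2 : Len R h m) :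
    Len R (g * h) (n + m) := by
  obtain ⟨w, e, rfl⟩ := h1
  obtain ⟨w', e', rfl⟩ := h2
  exact ⟨w ++ w', by simp; omega, by rw [← FreeGroup.mul_mk, map_mul]⟩

theorem Len.inv {g : PresentedGroup R} {n} (h1 : Len R g n) : Len R g⁻¹ n := by
  obtain ⟨w, e, rfl⟩ := h1
  exact ⟨FreeGroup.invRev w, by simpa using e, by rw [← FreeGroup.inv_mk, map_inv]⟩

theorem Len.pow {g : PresentedGroup R} {n} (h1 : Len R g n) (k : ℕ) : Len R (g ^ k) (n * k) := by
  induction k with
  | zero => exact ⟨[], by simp, by simp [← FreeGroup.one_eq_mk]⟩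
  | succ k ih => rw [pow_succ, Nat.mul_succ]; exact ih.mul h1

theorem lower_bound [Finite S] (hR : R.Finite) {P : Type} [Group P] (K : Subgroup P)
    (φ φt : P → ℤ) (hφ : ∀ k ∈ K, ∀ p, φt (k * p) = φ k + φt p)
    (Δ : PresentedGroup R →* FW P) (hΔ : ∀ g, Δ g ∈ tameSub K)
    (V : PresentedGroup R) (m : ℤ) (hm : 1 ≤ m) (hV : (Δ V).g = 1) (hV' : ∀ k ∈ K, (Δ V).f k = m) :
    ∃ C : ℕ, ∀ (k : PresentedGroup R) (n : ℕ), Len R k n → Commute V k → (Δ k).g ∈ K →
      |φ (Δ k).g| ≤ C * dehn R (2 * n + C) + C := by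
  let D : FreeGroup S →* FW P := Δ.comp (PresentedGroup.mk R)
  let Θ : FreeGroup S →* FW P := FreeGroup.lift fun s =>
    ⟨fun p => φt p * (D (FreeGroup.of s)).f p, (D (FreeGroup.of s)).g⟩
  have h1 : ∀ w, (Θ w).g = (D w).g := fun w =>
    DFunLike.congr_fun (show FW.proj.comp Θ = FW.proj.comp D by
      ext s; simp [Θ, FW.proj]) w
  have h2 : ∀ w, ∃ B : ℤ, ∀ p, |(Θ w).f p - φt p * (D w).f p| ≤ B := by
    intro w
    induction w using FreeGroup.induction_on with
    | C1 => exact ⟨0, by simp⟩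
    | of s => exact ⟨0, by simp [Θ]⟩
    | inv_of s hs =>
      obtain ⟨B, hB⟩ := hΔ (PresentedGroup.mk R (FreeGroup.of s))
        (fun q => φt (q * (D (FreeGroup.of s)).g) - φt q)
        (fun k hk p => by rw [mul_assoc, hφ k hk, hφ k hk]; ring)
      refine ⟨B, fun p => ?_⟩
      refine le_of_eq_of_le ?_ (hB (p * (D (FreeGroup.of s)).g⁻¹))
      simp only [map_inv, FW.inv_f, h1, inv_mul_cancel_right]
      congr 1
      simp only [Θ, FreeGroup.lift_apply_of, D, MonoidHom.comp_apply]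
      ring
    | mul x y hx hy =>
      obtain ⟨B1, hB1⟩ := hx
      obtain ⟨B2, hB2⟩ := hy
      obtain ⟨B, hB⟩ := hΔ (PresentedGroup.mk R y) (fun q => φt q - φt (q * (D x).g⁻¹))
        (fun k hk p => by rw [mul_assoc, hφ k hk, hφ k hk]; ring)
      refine ⟨B1 + B2 + B, fun p => ?_⟩
      have e1 := hB1 p
      have e2 := hB2 (p * (D x).g)
      have e3 := hB (p * (D x).g)
      simp only [mul_inv_cancel_right] at e3
      change |_ * (D y).f _| ≤ B at e3
      simp only [map_mul, FW.mul_f, h1]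
      rw [abs_le] at e1 e2 e3 ⊢
      constructor <;> nlinarith
  choose B hB using h2
  have h3 : ∀ r, (r ∈ R ∨ r⁻¹ ∈ R) → D r = 1 := by
    rintro r (hr | hr)
    · simp [D, PresentedGroup.one_of_mem hr]
    · have := PresentedGroup.one_of_mem hr
      rw [map_inv, inv_eq_one] at this
      simp [D, this]
  obtain ⟨B0, hB0⟩ := ((hR.union hR.inv).image B).bddAbove
  have h4 : ∀ L : List (FreeGroup S × FreeGroup S), (∀ p ∈ L, p.2 ∈ R ∨ p.2⁻¹ ∈ R) →
      |(Θ (L.map fun p => p.1 * p.2 * p.1⁻¹).prod).f 1| ≤ |B0| * L.length := by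
    intro L
    induction L with
    | nil => simp
    | cons q L ih =>
      intro h
      have e1 := ih (fun p hp => h p (List.mem_cons_of_mem _ hp))
      have e2 := h q List.mem_cons_self
      have e3 := hB q.2 (Θ q.1).g
      have e4 : B q.2 ≤ B0 := hB0 ⟨q.2, e2, rfl⟩
      have e5 := h1 q.2
      rw [h3 _ e2] at e3 e5
      simp only [FW.one_f, mul_zero, sub_zero, FW.one_g] at e3 e5
      simp only [List.map_cons, List.prod_cons, map_mul, map_inv, FW.mul_f, FW.mul_g, FW.inv_f,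
        FW.inv_g, e5, one_mul, mul_one, mul_inv_cancel, List.length_cons, Nat.cast_add,
        Nat.cast_one]
      have e6 := le_abs_self B0
      rw [abs_le] at e1 e3 ⊢
      constructor <;> nlinarith
  obtain ⟨l, wV, hl, rfl⟩ := exists_len V
  refine ⟨2 * l + (|B0| + 2 * |B (FreeGroup.mk wV)|).toNat, ?_⟩
  rintro _ n ⟨w, hw, rfl⟩ hc hk
  obtain ⟨L, e1, e2, e3⟩ := dehn_spec (R := R) (2 * n + (2 * l + (|B0| +
    2 * |B (FreeGroup.mk wV)|).toNat)) (w ++ wV ++ FreeGroup.invRev w ++ FreeGroup.invRev wV)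
    (by simp; omega) (by
      simp only [← FreeGroup.mul_mk, ← FreeGroup.inv_mk, map_mul, map_inv]
      rw [← hc.eq]; simp)
  have e4 := h4 L e2
  have e5 : (Θ (FreeGroup.mk wV)).g = 1 := (h1 _).trans hV
  rw [e3] at e4
  simp only [← FreeGroup.mul_mk, ← FreeGroup.inv_mk, map_mul, map_inv, FW.mul_f, FW.mul_g,
    FW.inv_f, FW.inv_g, e5, one_mul, mul_one, mul_inv_cancel, inv_one] at e4
  have e6 := hB (FreeGroup.mk wV) (Θ (FreeGroup.mk w)).g
  have e7 := hB (FreeGroup.mk wV) 1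
  have e8 := hφ _ hk 1
  rw [mul_one] at e8
  have e9 : (Θ (FreeGroup.mk w)).g = (Δ (PresentedGroup.mk R (FreeGroup.mk w))).g := h1 _
  have e10 : (D (FreeGroup.mk wV)).f (Θ (FreeGroup.mk w)).g = m := hV' _ (e9 ▸ hk)
  have e11 : (D (FreeGroup.mk wV)).f 1 = m := hV' _ (one_mem _)
  rw [e10, e9, e8] at e6
  rw [e11] at e7
  rw [e9] at e4
  generalize φ (Δ (PresentedGroup.mk R (FreeGroup.mk w))).g = x at *
  generalize dehn R _ = d at *
  have e12 : |x * m| ≤ |B0| * L.length + 2 * |B (FreeGroup.mk wV)| := by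
    have := le_abs_self (B (FreeGroup.mk wV))
    rw [abs_le] at e4 e6 e7 ⊢
    constructor <;> nlinarith
  have e13 : |x| ≤ |x * m| := by
    rw [abs_mul, abs_of_pos (show 0 < m by omega)]
    nlinarith [abs_nonneg x]
  have e14 : ((|B0| + 2 * |B (FreeGroup.mk wV)|).toNat : ℤ) = |B0| + 2 * |B (FreeGroup.mk wV)| :=
    Int.toNat_of_nonneg (by positivity)
  push_cast
  rw [e14]
  have e15 : (L.length : ℤ) ≤ d := by exact_mod_cast e1
  have e16 := abs_nonneg B0
  have e17 := abs_nonneg (B (FreeGroup.mk wV))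
  have e18 : (0 : ℤ) ≤ d := by positivity
  have e19 : (0 : ℤ) ≤ l := by positivity
  nlinarith

theorem superExp_of_tower {δ : ℕ → ℕ} (hδ : Monotone δ) (C : ℕ)
    (h : ∀ k, 2 ^ 2 ^ k ≤ C * δ (C * k + C) + C) : SuperExp fun n => δ n := by
  have hexp : ∀ n : ℕ, Real.exp n ≤ ((2 ^ (2 * n) : ℕ) : ℝ) := by
    intro n
    rw [← Real.exp_one_pow n, pow_mul]
    push_cast
    exact pow_le_pow_left₀ (Real.exp_pos 1).le (by linarith [Real.exp_one_lt_d9]) n
  constructor
  · refine ⟨2 * C + 1, by omega, fun n => (hexp n).trans ?_⟩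
    have h1 : 2 ^ (2 * n) ≤ 2 ^ 2 ^ (n + 1) := by
      apply Nat.pow_le_pow_right (by norm_num)
      have := Nat.lt_two_pow_self (n := n)
      rw [pow_succ]; omega
    have h2 : δ (C * (n + 1) + C) ≤ δ ((2 * C + 1) * n + (2 * C + 1)) := hδ (by nlinarith)
    have h3 := h (n + 1)
    have h4 : 2 ^ (2 * n) ≤ (2 * C + 1) * δ ((2 * C + 1) * n + (2 * C + 1)) +
        (2 * C + 1) * n + (2 * C + 1) := by 
      nlinarith [Nat.zero_le (δ ((2 * C + 1) * n + (2 * C + 1)))]
    beta_reduce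
    exact_mod_cast h4
  · rintro ⟨D, -, hD⟩
    have h1 : ∀ n, δ n ≤ D * 2 ^ (2 * (D * n + D)) + (D * n + D) := by
      intro n
      have h2 := hD n
      have h3 := hexp (D * n + D)
      have h4 : (δ n : ℝ) ≤ D * ((2 ^ (2 * (D * n + D)) : ℕ) : ℝ) + D * n + D :=
        h2.trans (by gcongr)
      rw [add_assoc] at h4
      exact_mod_cast h4
    have h5 : ∀ k, 2 ^ k ≤ C * (D + 2) + 2 * (D * (C * k + C) + D) := by
      intro k
      obtain ⟨t, ht⟩ : ∃ t, t = D * (C * k + C) + D := ⟨_, rfl⟩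
      have e1 := h1 (C * k + C)
      rw [← ht] at e1 ⊢
      have e2 : t ≤ 2 ^ (2 * t) := by
        have := Nat.lt_two_pow_self (n := 2 * t); omega
      have e3 : 1 ≤ 2 ^ (2 * t) := Nat.one_le_two_pow
      have e4 : C * (D + 2) ≤ 2 ^ (C * (D + 2)) := Nat.lt_two_pow_self.le
      have e5 : 2 ^ 2 ^ k ≤ 2 ^ (C * (D + 2) + 2 * t) := by
        calc 2 ^ 2 ^ k ≤ C * δ (C * k + C) + C := h k
          _ ≤ C * (D * 2 ^ (2 * t) + 2 ^ (2 * t)) + C * 2 ^ (2 * t) := by
            gcongr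
            · omega
            · nlinarith
          _ = C * (D + 2) * 2 ^ (2 * t) := by ring
          _ ≤ 2 ^ (C * (D + 2)) * 2 ^ (2 * t) := by gcongr
          _ = _ := by rw [pow_add]
      exact (Nat.pow_le_pow_iff_right (by norm_num)).1 e5
    obtain ⟨a, ha⟩ : ∃ a, a = C * (D + 2) + 2 * (D * C + D) := ⟨_, rfl⟩
    have e1 := h5 (2 * (2 * a))
    have e2 : 2 * a + 1 ≤ 2 ^ (2 * a) := Nat.lt_two_pow_self
    have e3 : (2 * a + 1) ^ 2 ≤ 2 ^ (2 * (2 * a)) := by
      rw [mul_comm 2 (2 * a), pow_mul 2 (2 * a) 2]; gcongr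
    have e4 : 2 * (D * C) ≤ a := by omega
    nlinarith

end dehn

end Pool.Agent.Lib.MP_8cfc4a_al
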