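import Pool.Agent.Lib.MP_8cfc4a_al.Embed
import Pool.Agent.Lib.MP_8cfc4a_al.FinIndex
import Pool.Agent.Lib.MP_8cfc4a_al.Lower
import Pool.Agent.Lib.MP_8cfc4a_al.Fib

/-!
The main theorem.
-/

namespace Pool.Agent.Lib.MP_8cfc4a_al

open SemidirectProduct

/-- the three vectors -/
def ev : Fin 3 → ℤ × ℤ := ![0, (1, 0), (0, 1)]

/-- table of the Fibonacci matrix -/
def tblA (ε : Bool) (τ : Fin 3) : Fin 3 × Fin 3 × Fin 3 :=
  cond ε (![(0, 0, 0), (1, 2, 0), (1, 0, 0)] τ) (![(0, 0, 0), (0, 2, 0), (2, 1, 0)] τ)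

theorem tbl_rel {W : Type} [Group W] (f : Multiplicative (ℤ × ℤ) →* W) (x : W)
    (h : ∀ c, x * f (Multiplicative.ofAdd c) * x⁻¹ = f (Multiplicative.ofAdd (fA c))) (ε τ) :
    bp x ε * f (Multiplicative.ofAdd (ev τ)) * (bp x ε)⁻¹ =
      bp (f (Multiplicative.ofAdd (ev (tblA ε τ).1))) ε *
        f (Multiplicative.ofAdd (ev (tblA ε τ).2.1)) *
        (bp (f (Multiplicative.ofAdd (ev (tblA ε τ).2.2))) ε)⁻¹ := by
  cases ε
  · simp only [bp_false, inv_inv]
    rw [← map_inv, ← map_mul, ← map_mul, mul_assoc, inv_mul_eq_iff_eq_mul,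
      ← ofAdd_neg, ← ofAdd_add, ← ofAdd_add, ← eq_mul_inv_iff_mul_eq, h]
    congr 2
    revert τ
    decide
  · simp only [bp_true]
    rw [h, ← map_inv, ← map_mul, ← map_mul, ← ofAdd_neg, ← ofAdd_add, ← ofAdd_add]
    congr 2
    revert τ
    decide

section tower
variable (E1 : Ext (D0 tblA))

/-- the table for the second step -/
def tbl1 (k : E1.Kk) (ε : Bool) (τ : Fin 3) : Fin 3 × Fin 3 × Fin 3 :=
  if E1.kty k = 1 then tblA ε τ else (0, τ, 0)

variable (E2 : Ext (E1.next (tbl1 E1)))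

theorem exists_Δ : ∃ Δ : E2.H →* FW (Equiv.Perm Om), (∀ h, Δ h ∈ tameSub ab.range) ∧
    (Δ E2.v).g = 1 ∧ (∀ k ∈ ab.range, (Δ E2.v).f k = 1) ∧
    (Δ (E2.ιH (E2.ι (E1.ι (FreeGroup.of ()))))).g = xb ∧
    (Δ (E2.ιH (E2.ι (E1.Y.val (E1.kl E1.k1))))).g = cb (Multiplicative.ofAdd (1, 0)) ∧
    (Δ (E2.ιH (E2.Y.val (E2.kl E2.k1)))).g = ab (Multiplicative.ofAdd (1, 0)) := by
  classical
  obtain ⟨f1, a1, a2⟩ := E1.up1 (Equiv.Perm Om) (FreeGroup.lift fun _ => xb)
    (fun τ => cb (Multiplicative.ofAdd (ev τ))) (by simp [ev]) (fun c ε τ => by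
      have : (FreeGroup.lift fun _ : Unit => xb) (X0.val ((D0 tblA).cl c)) = xb :=
        FreeGroup.lift_apply_of
      rw [this]
      exact tbl_rel cb xb xb_cb ε τ)
  obtain ⟨f2, b1, b2⟩ := E2.up1 (Equiv.Perm Om) f1
    (fun τ => ab (Multiplicative.ofAdd (ev τ))) (by simp [ev]) (fun c ε τ => by
      change bp (f1 (E1.Y.val (E1.kl c))) ε * _ * (bp (f1 (E1.Y.val (E1.kl c))) ε)⁻¹ =
        bp (ab (Multiplicative.ofAdd (ev (tbl1 E1 c ε τ).1))) ε *
        ab (Multiplicative.ofAdd (ev (tbl1 E1 c ε τ).2.1)) *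
        (bp (ab (Multiplicative.ofAdd (ev (tbl1 E1 c ε τ).2.2))) ε)⁻¹
      rw [a2]
      unfold tbl1
      split_ifs with h
      · rw [h]
        exact tbl_rel ab _ (fun a => by simpa [ev] using cb_ab (1, 0) a) ε τ
      · have h0 : (ev (E1.kty c)).1 = 0 := by
          revert h; generalize E1.kty c = t; revert t; decide
        have h1 := cb_ab (ev (E1.kty c)) (ev τ)
        have h2 := cb_ab (-ev (E1.kty c)) (ev τ)
        rw [h0] at h1
        rw [Prod.fst_neg, h0, neg_zero, ofAdd_neg, map_inv] at h2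
        have h3 : ab (Multiplicative.ofAdd (ev 0)) = 1 := by simp [ev]
        cases ε
        · simpa [h3] using h2
        · simpa [h3] using h1)
  obtain ⟨Δ, c1, c2⟩ := E2.H_lift (FW.sec.comp f2)
    ⟨fun p => if p ∈ ab.range then 1 else 0, 1⟩ (fun k => by
      have h : f2 (E2.Y.val (E2.kl k)) ∈ ab.range := by rw [b2]; exact ⟨_, rfl⟩
      refine FW.ext (funext fun p => ?_) (by simp)
      simp only [FW.mul_f, MonoidHom.comp_apply, FW.sec, MonoidHom.coe_mk, OneHom.coe_mk,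
        add_zero, zero_add, Subgroup.mul_mem_cancel_right _ h])
  refine ⟨Δ, fun h => ?_, by rw [c2], fun k hk => by rw [c2]; exact if_pos hk, ?_, ?_, ?_⟩
  · refine (Subgroup.eq_top_iff' _).1 (E2.H_gen ((tameSub ab.range).comap Δ) (fun g => ?_) ?_) h
    · rw [Subgroup.mem_comap, c1]
      exact fun g _ => ⟨0, by simp [FW.sec]⟩
    · rw [Subgroup.mem_comap, c2]
      refine fun g hg => ⟨|g 1|, fun p => ?_⟩
      by_cases hp : p ∈ ab.range
      · have := hg p hp 1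
        rw [mul_one] at this
        simp only [if_pos hp, mul_one, this, le_refl]
      · simp only [if_neg hp, mul_zero, abs_zero, abs_nonneg]
  · rw [c1]
    change f2 _ = _
    rw [b1, a1]; simp
  · rw [c1]
    change f2 _ = _
    rw [b1, a2, E1.hk1]; rfl
  · rw [c1]
    change f2 _ = _
    rw [b2, E2.hk1]; rfl

theorem comm_v (m n : ℕ) :
    Commute E2.v (E2.ιH (E2.ι (E1.ι (FreeGroup.of ()) ^ n * E1.Y.val (E1.kl E1.k1) ^ m *
      (E1.ι (FreeGroup.of ()) ^ n)⁻¹) * E2.Y.val (E2.kl E2.k1) ^ m *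
      (E2.ι (E1.ι (FreeGroup.of ()) ^ n * E1.Y.val (E1.kl E1.k1) ^ m *
      (E1.ι (FreeGroup.of ()) ^ n)⁻¹))⁻¹)) := by
  refine E2.v_comm (norm_CK E1 E2 ?_ (pow_mem (E2.mem_K _) _))
  induction n with
  | zero => simpa using pow_mem (E1.mem_K _) _
  | succ n ih =>
    have := E1.norm' () true ih
    simpa [pow_succ', mul_assoc] using this

end tower

theorem FW.pow_f {P : Type} [Group P] (a : FW P) (h : a.g = 1) (m : ℕ) (p : P) :
    (a ^ m).f p = m * a.f p ∧ (a ^ m).g = 1 := by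
  induction m with
  | zero => simp
  | succ m ih => simp [pow_succ, ih, h, add_mul]

theorem main : ∃ (V : Type) (_ : Finite V) (Γ : SimpleGraph V) (H : Subgroup (RAAG Γ)),
    Group.IsFinitelyPresented H ∧
    ∀ (S : Type) (_ : Finite S) (R : Set (FreeGroup S)), R.Finite →
      Nonempty (PresentedGroup R ≃* H) → SuperExp fun n => (dehn R n : ℝ) := by
  let E1 := (D0 tblA).ext
  let E2 := (E1.next (tbl1 E1)).ext
  obtain ⟨V, _, Γ, Q, _, _, _, _, Ξ, hΞ⟩ := exists_embed E1 E2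
  obtain ⟨Δ, d1, d2, d3, d4, d5, d6⟩ := exists_Δ E1 E2
  have hc := comm_v E1 E2
  have hfp := E2.H_fp
  simp only [map_mul, map_inv, map_pow] at hc
  generalize E2.ιH (E2.ι (E1.ι (FreeGroup.of ()))) = x at *
  generalize E2.ιH (E2.ι (E1.Y.val (E1.kl E1.k1))) = c at *
  generalize E2.ιH (E2.Y.val (E2.kl E2.k1)) = a at *
  generalize E2.v = v at *
  let H0 : Subgroup E2.H := (rightHom.comp Ξ).ker
  have hr : ∀ h : H0, (Ξ h).right = 1 := fun h => h.2
  let ψ : H0 →* RAAG Γ :=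
    { toFun h := (Ξ h).left
      map_one' := by simp
      map_mul' a b := by simp [hr a] }
  have hψ : Function.Injective ψ := by
    rw [injective_iff_map_eq_one]
    exact fun h hh => Subtype.ext (hΞ _ hh)
  let e0 : H0 ≃* ψ.range := MonoidHom.ofInjective hψ
  refine ⟨V, inferInstance, Γ, ψ.range, ?_, ?_⟩
  · have := fp_of_finiteIndex hfp H0
    exact Group.IsFinitelyPresented.equiv e0
  rintro S _ R hR ⟨e⟩
  let ι : PresentedGroup R →* E2.H := H0.subtype.comp (e.trans e0.symm).toMonoidHom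
  have hι : Function.Injective ι := Subtype.val_injective.comp (e.trans e0.symm).injective
  obtain ⟨m, hm, hm'⟩ : ∃ m : ℕ, 1 ≤ m ∧ ∀ h, ∃ g, ι g = h ^ m := by
    refine ⟨Nat.card Q, Nat.card_pos, fun h => ⟨(e.trans e0.symm).symm ⟨h ^ Nat.card Q, ?_⟩, ?_⟩⟩
    · rw [MonoidHom.mem_ker, map_pow, pow_card_eq_one']
    · simp [ι]
  obtain ⟨x', hx⟩ := hm' x
  obtain ⟨c', hc'⟩ := hm' c
  obtain ⟨a', ha⟩ := hm' a
  obtain ⟨v', hv⟩ := hm' v
  obtain ⟨C, hC⟩ := lower_bound hR ab.range ph pht pht_mul (Δ.comp ι) (fun g => d1 _) v' m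
    (by exact_mod_cast hm)
    (by rw [MonoidHom.comp_apply, hv, map_pow]; exact (FW.pow_f _ d2 m 1).2)
    (fun k hk => by
      rw [MonoidHom.comp_apply, hv, map_pow, (FW.pow_f _ d2 m k).1, d3 k hk, mul_one])
  obtain ⟨lx, hlx⟩ := exists_len x'
  obtain ⟨lc, hlc⟩ := exists_len c'
  obtain ⟨la, hla⟩ := exists_len a'
  have key : ∀ n, m * Nat.fib (m * Nat.fib (m * n + 1) + 1) ≤
      C * dehn R (2 * (lx * n + lc + lx * n + la + (lx * n + lc + lx * n)) + C) + C := by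
    intro n
    have l1 := ((hlx.pow n).mul hlc).mul (hlx.pow n).inv
    have hg : ((Δ.comp ι) (x' ^ n * c' * (x' ^ n)⁻¹ * a' * (x' ^ n * c' * (x' ^ n)⁻¹)⁻¹)).g =
        ab (Multiplicative.ofAdd ((m : ℤ) • ((Nat.fib (m * Nat.fib (m * n + 1) + 1) : ℤ),
          (Nat.fib (m * Nat.fib (m * n + 1)) : ℤ)))) := by
      change (FW.proj.comp (Δ.comp ι)) _ = _
      have e1 : (FW.proj.comp (Δ.comp ι)) x' = xb ^ m := by
        simp only [MonoidHom.comp_apply, hx, map_pow]; exact congrArg (· ^ m) d4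
      have e2 : (FW.proj.comp (Δ.comp ι)) c' = cb (Multiplicative.ofAdd ((m : ℤ) • (1, 0))) := by
        simp only [MonoidHom.comp_apply, hc', map_pow]
        rw [natCast_zsmul, ofAdd_nsmul, map_pow]
        exact congrArg (· ^ m) d5
      have e3 : (FW.proj.comp (Δ.comp ι)) a' = ab (Multiplicative.ofAdd ((m : ℤ) • (1, 0))) := by
        simp only [MonoidHom.comp_apply, ha, map_pow]
        rw [natCast_zsmul, ofAdd_nsmul, map_pow]
        exact congrArg (· ^ m) d6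
      rw [map_mul, map_mul, map_inv, map_mul, map_mul, map_inv, map_pow, e1, e2, e3, ← pow_mul,
        xb_pow_cb, cb_ab, map_zsmul (fA ^ (m * n)), map_zsmul (fA ^ (_ : ℤ)), fA_pow, Prod.smul_fst, smul_eq_mul,
        ← Nat.cast_mul, zpow_natCast, fA_pow]
    have h1 := hC _ _ ((l1.mul hla).mul l1.inv) (by
      apply hι
      have := (hc m (m * n)).pow_left m
      simp only [map_mul, map_inv, map_pow, hx, hc', ha, hv, ← pow_mul]
      exact this) (by rw [hg]; exact ⟨_, rfl⟩)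
    rw [hg, ph_ab] at h1
    have h2 := (le_abs_self _).trans h1
    simp only [Prod.smul_fst, smul_eq_mul] at h2
    exact_mod_cast h2
  refine superExp_of_tower dehn_mono (C + 16 * lx + 4 * lc + 2 * la) (fun k => ?_)
  refine (tower_le m k hm).trans ((key (2 * k + 2)).trans ?_)
  have h3 : dehn R (2 * (lx * (2 * k + 2) + lc + lx * (2 * k + 2) + la +
      (lx * (2 * k + 2) + lc + lx * (2 * k + 2))) + C) ≤
      dehn R ((C + 16 * lx + 4 * lc + 2 * la) * k + (C + 16 * lx + 4 * lc + 2 * la)) :=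
    dehn_mono (by nlinarith [Nat.zero_le (C * k), Nat.zero_le (lc * k), Nat.zero_le (la * k)])
  gcongr <;> omega

end Pool.Agent.Lib.MP_8cfc4a_al
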