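import Pool.Agent.Lib.MP_8cfc4a_al.Defs

/-!
Basic facts on right-angled Artin groups, groups acting on them, and a pinch lemma.
-/

namespace Pool.Agent.Lib.MP_8cfc4a_al

open SemidirectProduct HNNExtension HNNExtension.NormalWord

/-- `g` or its inverse. -/
def bp {G : Type*} [Group G] (g : G) (b : Bool) : G := cond b g g⁻¹

section bp
variable {G H : Type*} [Group G] [Group H]
@[simp] theorem bp_true (g : G) : bp g true = g := rfl
@[simp] theorem bp_false (g : G) : bp g false = g⁻¹ := rfl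
@[simp] theorem bp_not (g : G) (b : Bool) : bp g (!b) = (bp g b)⁻¹ := by cases b <;> simp
@[simp] theorem bp_one (b : Bool) : bp (1 : G) b = 1 := by cases b <;> simp
@[simp] theorem map_bp {F : Type*} [FunLike F G H] [MonoidHomClass F G H] (f : F) (g : G)
    (b : Bool) : f (bp g b) = bp (f g) b := by cases b <;> simp
theorem bp_mem {K : Subgroup G} {g : G} (h : g ∈ K) (b : Bool) : bp g b ∈ K := by
  cases b <;> simp [h]
end bp

variable {V : Type} {Γ : SimpleGraph V}

/-- The generator of a vertex. -/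
def gen (Γ : SimpleGraph V) (v : V) : RAAG Γ := PresentedGroup.of v

theorem gen_comm {u v : V} (h : Γ.Adj u v) : Commute (gen Γ u) (gen Γ v) := by
  have h1 : PresentedGroup.mk (raagRels Γ) (FreeGroup.of u * FreeGroup.of v *
      (FreeGroup.of u)⁻¹ * (FreeGroup.of v)⁻¹) = 1 :=
    PresentedGroup.one_of_mem ⟨u, v, h, rfl⟩
  simp only [map_mul, map_inv] at h1
  change gen Γ u * gen Γ v * (gen Γ u)⁻¹ * (gen Γ v)⁻¹ = 1 at h1
  exact commutatorElement_eq_one_iff_commute.1 h1

/-- Universal property. -/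
def rlift {G : Type*} [Group G] (f : V → G) (hf : ∀ u v, Γ.Adj u v → Commute (f u) (f v)) :
    RAAG Γ →* G :=
  PresentedGroup.toGroup (f := f) (by
    rintro r ⟨u, v, h, rfl⟩
    simp only [map_mul, map_inv, FreeGroup.lift_apply_of]
    exact commutatorElement_eq_one_iff_commute.2 (hf u v h))

@[simp] theorem rlift_gen {G : Type*} [Group G] (f : V → G)
    (hf : ∀ u v, Γ.Adj u v → Commute (f u) (f v)) (v : V) : rlift f hf (gen Γ v) = f v :=
  PresentedGroup.toGroup.of _

theorem rhom_ext {G : Type*} [Group G] {f g : RAAG Γ →* G}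
    (h : ∀ v, f (gen Γ v) = g (gen Γ v)) : f = g :=
  PresentedGroup.ext h

/-- The parabolic subgroup generated by a set of vertices. -/
def par (Γ : SimpleGraph V) (Λ : Set V) : Subgroup (RAAG Γ) := Subgroup.closure (gen Γ '' Λ)

theorem gen_mem_par {Λ : Set V} {v : V} (h : v ∈ Λ) : gen Γ v ∈ par Γ Λ :=
  Subgroup.subset_closure ⟨v, h, rfl⟩

theorem par_mono {Λ Λ' : Set V} (h : Λ ⊆ Λ') : par Γ Λ ≤ par Γ Λ' :=
  Subgroup.closure_mono (Set.image_mono h)

theorem mem_par_univ (a : RAAG Γ) : a ∈ par Γ Set.univ := by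
  have : par Γ Set.univ = ⊤ := by
    rw [par, Set.image_univ]; exact PresentedGroup.closure_range_of _
  rw [this]; trivial

theorem map_par {G : Type*} [Group G] (f : RAAG Γ →* G) {Λ : Set V} (K : Subgroup G)
    (h : ∀ v ∈ Λ, f (gen Γ v) ∈ K) {a : RAAG Γ} (ha : a ∈ par Γ Λ) : f a ∈ K := by
  have : par Γ Λ ≤ K.comap f := by
    rw [par, Subgroup.closure_le]
    rintro _ ⟨v, hv, rfl⟩
    exact h v hv
  exact this ha

theorem eqOn_par {G : Type*} [Group G] (f g : RAAG Γ →* G) {Λ : Set V}
    (h : ∀ v ∈ Λ, f (gen Γ v) = g (gen Γ v)) {a : RAAG Γ} (ha : a ∈ par Γ Λ) : f a = g a := by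
  have : par Γ Λ ≤ f.eqLocus g := by
    rw [par, Subgroup.closure_le]
    rintro _ ⟨v, hv, rfl⟩
    exact h v hv
  exact this ha

theorem commute_par {z : V} {a : RAAG Γ} (ha : a ∈ par Γ (Γ.neighborSet z)) :
    Commute (gen Γ z) a := by
  have : par Γ (Γ.neighborSet z) ≤ Subgroup.centralizer {gen Γ z} := by
    rw [par, Subgroup.closure_le]
    rintro _ ⟨v, hv, rfl⟩
    simp only [SetLike.mem_coe, Subgroup.mem_centralizer_iff, Set.mem_singleton_iff, forall_eq]
    exact gen_comm hv
  have h := this ha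
  simp only [Subgroup.mem_centralizer_iff, Set.mem_singleton_iff, forall_eq] at h
  exact h

/-- A group acting on the vertices and preserving adjacency. -/
class GAct (Q : Type) [Group Q] {V : Type} [MulAction Q V] (Γ : SimpleGraph V) : Prop where
  adj : ∀ (g : Q) (u v : V), Γ.Adj u v → Γ.Adj (g • u) (g • v)

variable {Q : Type} [Group Q] [MulAction Q V] [GAct Q Γ]

theorem adj_smul_iff (g : Q) (u v : V) : Γ.Adj (g • u) (g • v) ↔ Γ.Adj u v :=
  ⟨fun h => by simpa using GAct.adj (Γ := Γ) g⁻¹ _ _ h, GAct.adj g u v⟩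

/-- The endomorphism induced by a group element. -/
def actHom (Γ : SimpleGraph V) [GAct Q Γ] (g : Q) : RAAG Γ →* RAAG Γ :=
  rlift (fun v => gen Γ (g • v)) (fun u v h => gen_comm (GAct.adj g u v h))

@[simp] theorem actHom_gen (g : Q) (v : V) : actHom Γ g (gen Γ v) = gen Γ (g • v) :=
  rlift_gen _ _ _

/-- The induced action on the right-angled Artin group. -/
def act (Γ : SimpleGraph V) (Q : Type) [Group Q] [MulAction Q V] [GAct Q Γ] :
    Q →* MulAut (RAAG Γ) where
  toFun g := MonoidHom.toMulEquiv (actHom Γ g) (actHom Γ g⁻¹)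
    (rhom_ext fun v => by simp) (rhom_ext fun v => by simp)
  map_one' := by
    ext a
    have : actHom Γ (1 : Q) = MonoidHom.id _ := rhom_ext fun v => by simp
    simp [this]
  map_mul' g h := by
    ext a
    have : actHom Γ (g * h) = (actHom Γ g).comp (actHom Γ h) :=
      rhom_ext fun v => by simp [mul_smul]
    simp [this]

@[simp] theorem act_gen (g : Q) (v : V) : act Γ Q g (gen Γ v) = gen Γ (g • v) :=
  actHom_gen g v

@[simp] theorem act_symm_gen (g : Q) (v : V) :
    (act Γ Q g).symm (gen Γ v) = gen Γ (g⁻¹ • v) := by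
  rw [MulEquiv.symm_apply_eq]; simp

theorem act_mul_apply (g h : Q) (a : RAAG Γ) : act Γ Q (g * h) a = act Γ Q g (act Γ Q h a) := by
  simp

theorem act_par (g : Q) {Λ Λ' : Set V} (h : ∀ v ∈ Λ, g • v ∈ Λ') {a : RAAG Γ}
    (ha : a ∈ par Γ Λ) : act Γ Q g a ∈ par Γ Λ' :=
  map_par (act Γ Q g).toMonoidHom _ (fun v hv => by simpa using gen_mem_par (h v hv)) ha

theorem par_of_act (g : Q) {Λ Λ' : Set V} (h : ∀ v, g • v ∈ Λ → v ∈ Λ') {a : RAAG Γ}
    (ha : act Γ Q g a ∈ par Γ Λ) : a ∈ par Γ Λ' := by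
  have := act_par (Γ := Γ) g⁻¹ (Λ' := Λ') (fun v hv => h _ (by simpa using hv)) ha
  simpa using this

/-- The semidirect product of the Artin group with the acting group. -/
abbrev Wr (Γ : SimpleGraph V) (Q : Type) [Group Q] [MulAction Q V] [GAct Q Γ] : Type :=
  RAAG Γ ⋊[act Γ Q] Q

/-! ### The pinch lemma -/

/-- The auxiliary HNN extension. -/
abbrev HY (Γ : SimpleGraph V) (y : V) : Type :=
  HNNExtension (RAAG Γ) (par Γ (Γ.neighborSet y)) (par Γ (Γ.neighborSet y)) (MulEquiv.refl _)

theorem t_comm (y : V) {a : RAAG Γ} (ha : a ∈ par Γ (Γ.neighborSet y)) :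
    Commute (t : HY Γ y) (of a) := by
  have := t_mul_of (G := RAAG Γ) (φ := MulEquiv.refl (par Γ (Γ.neighborSet y))) ⟨a, ha⟩
  exact this

open Classical in
/-- The map sending the generator `y` to the stable letter. -/
noncomputable def fY (Γ : SimpleGraph V) (y : V) : RAAG Γ →* HY Γ y :=
  rlift (fun v => if v = y then t else of (gen Γ v)) (by
    intro u v h
    by_cases hu : u = y
    · have hv : v ≠ y := fun hv => h.ne (hu.trans hv.symm)
      simp only [hu, hv, if_true, if_false]
      exact t_comm y (gen_mem_par (hu ▸ h))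
    · by_cases hv : v = y
      · simp only [hu, hv, if_true, if_false]
        exact (t_comm y (gen_mem_par (hv ▸ h.symm))).symm
      · simp only [hu, hv, if_false]
        exact (gen_comm h).map _)

theorem fY_self (y : V) : fY Γ y (gen Γ y) = t := by simp [fY]

theorem fY_par (y : V) {a : RAAG Γ} (ha : a ∈ par Γ {v | v ≠ y}) : fY Γ y a = of a :=
  eqOn_par _ _ (fun v hv => by
    have : v ≠ y := hv
    simp [fY, this]) ha

/-- sign as a unit -/
def un (b : Bool) : ℤˣ := cond b 1 (-1)

theorem zpow_un {G : Type*} [Group G] (g : G) (b : Bool) : g ^ (un b : ℤ) = bp g b := by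
  cases b <;> simp [un]

theorem un_ne {a b : Bool} (h : un a ≠ un b) : b = !a := by
  cases a <;> cases b <;> simp_all

theorem toSub (A : Subgroup (RAAG Γ)) (u : ℤˣ) : toSubgroup A A u = A := by
  rcases Int.units_eq_one_or u with rfl | rfl <;> rfl

section pinch
variable {I : Type} (val : I → Wr Γ Q) (c : I → Option (V × Bool))

/-- The product of a list of items. -/
def prd (L : List I) : Wr Γ Q := (L.map val).prod

@[simp] theorem prd_nil : prd val [] = 1 := rfl
@[simp] theorem prd_cons (i : I) (L : List I) : prd val (i :: L) = val i * prd val L := by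
  simp [prd]
@[simp] theorem prd_append (L L' : List I) : prd val (L ++ L') = prd val L * prd val L' := by
  simp [prd]

/-- A pinch. -/
def Pinch (L : List I) : Prop :=
  ∃ L1 i L2 i' L3 z z' ε, L = L1 ++ i :: (L2 ++ i' :: L3) ∧ c i = some (z, ε) ∧
    c i' = some (z', !ε) ∧ ((val i).right * (prd val L2).right) • z' = z ∧
    act Γ Q (val i).right (prd val L2).left ∈ par Γ (Γ.neighborSet z)

theorem pinch_aux (Z : Set V) (hZ : ∀ (g : Q) v, g • v ∈ Z → v ∈ Z)
    (hn : ∀ i, c i = none → (val i).left ∈ par Γ Zᶜ)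
    (hs : ∀ i z ε, c i = some (z, ε) →
      ∃ b ∈ par Γ (Γ.neighborSet z ∩ Zᶜ), (val i).left = bp (gen Γ z) ε * b)
    (y : V) (hy : y ∈ Z) (L : List I) : ∀ s : Q, Pinch val c L ∨
      ∃ w : ReducedWord (RAAG Γ) (par Γ (Γ.neighborSet y)) (par Γ (Γ.neighborSet y)),
        w.prod (MulEquiv.refl _) = fY Γ y (act Γ Q s (prd val L).left) ∧
        (((∀ L1 i L2 z ε, L = L1 ++ i :: L2 → c i = some (z, ε) →
            (s * (prd val L1).right) • z ≠ y) ∧ w.toList = [] ∧
            w.head = act Γ Q s (prd val L).left) ∨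
          ∃ L2 i' L3 z' ε g tl, L = L2 ++ i' :: L3 ∧ c i' = some (z', ε) ∧
            (s * (prd val L2).right) • z' = y ∧ w.head = act Γ Q s (prd val L2).left ∧
            w.toList = (un ε, g) :: tl) := by
  induction L with
  | nil =>
    intro s
    right
    refine ⟨ReducedWord.empty _ _ _, by simp [ReducedWord.prod], Or.inl ⟨?_, rfl, by simp⟩⟩
    intro L1 i L2 z ε h
    simp at h
  | cons i L ih =>
    intro s
    rcases ih (s * (val i).right) with hp | ⟨w, hw, hw2⟩
    · obtain ⟨L1, j, L2, j', L3, z, z', ε, rfl, h⟩ := hp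
      exact Or.inl ⟨i :: L1, j, L2, j', L3, z, z', ε, rfl, h⟩
    have hZc : ∀ v ∈ Zᶜ, s • v ∈ {v | v ≠ y} := fun v hv h => hv (hZ s v (by rw [h]; exact hy))
    by_cases hi : ∃ z ε, c i = some (z, ε) ∧ s • z = y
    · obtain ⟨z, ε, hc, hz⟩ := hi
      obtain ⟨b, hb, hl⟩ := hs i z ε hc
      have hb1 : act Γ Q s b ∈ par Γ (Γ.neighborSet y) :=
        act_par s (fun v hv => by rw [← hz]; exact GAct.adj s _ _ hv.1) hb
      have hb2 : act Γ Q s b ∈ par Γ {v | v ≠ y} := act_par s (fun v hv => hZc v hv.2) hb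
      by_cases hch : ((un ε, act Γ Q s b * w.head) :: w.toList).IsChain
          (fun a b => a.2 ∈ toSubgroup (par Γ (Γ.neighborSet y)) (par Γ (Γ.neighborSet y)) a.1 →
            a.1 = b.1)
      · right
        refine ⟨⟨1, _, hch⟩, ?_, Or.inr ⟨[], i, L, z, ε, _, _, rfl, hc, by simpa using hz,
          by simp, rfl⟩⟩
        simp only [ReducedWord.prod] at hw
        simp only [ReducedWord.prod, map_one, List.map_cons, List.prod_cons, one_mul, prd_cons,
          mul_left, map_mul, hl, map_bp, act_gen, hz, fY_self, zpow_un, fY_par y hb2, mul_assoc,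
          hw, act_mul_apply, MulAut.mul_apply]
      · left
        rcases hw2 with ⟨-, h0, -⟩ | ⟨L2, i', L3, z', ε', g, tl, rfl, hc', hz', hh, htl⟩
        · exact absurd (by rw [h0]; exact List.isChain_singleton _) hch
        have hw3 := w.chain
        rw [htl] at hch hw3
        rw [List.isChain_cons_cons] at hch
        have h4 : ¬ (act Γ Q s b * w.head ∈ par Γ (Γ.neighborSet y) → un ε = un ε') :=
          fun h => hch ⟨by simpa [toSub] using h, hw3⟩
        rw [Classical.not_imp] at h4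
        obtain ⟨h5, h6⟩ := h4
        rw [Subgroup.mul_mem_cancel_left _ hb1, hh, act_mul_apply] at h5
        refine ⟨[], i, L2, i', L3, z, z', ε, rfl, hc, by rw [hc', un_ne h6], ?_, ?_⟩
        · apply MulAction.injective s
          simp only [hz, ← hz', mul_smul]
        · refine par_of_act s (fun v hv => ?_) h5
          rw [← hz] at hv
          exact (adj_smul_iff s _ _).1 hv
    · have ha : act Γ Q s (val i).left ∈ par Γ {v | v ≠ y} := by
        rcases hci : c i with _ | ⟨z, ε⟩
        · exact act_par s hZc (hn i hci)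
        · obtain ⟨b, hb, hl⟩ := hs i z ε hci
          rw [hl, map_mul, map_bp, act_gen]
          have h7 : s • z ∈ {v | v ≠ y} := fun h => hi ⟨z, ε, hci, h⟩
          exact mul_mem (bp_mem (gen_mem_par h7) _) (act_par s (fun v hv => hZc v hv.2) hb)
      right
      refine ⟨⟨act Γ Q s (val i).left * w.head, w.toList, w.chain⟩, ?_, ?_⟩
      · simp only [ReducedWord.prod] at hw
        simp only [ReducedWord.prod, map_mul, prd_cons, mul_left, fY_par y ha, mul_assoc, hw,
          act_mul_apply, MulAut.mul_apply]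
      · rcases hw2 with ⟨h1, h2, h3⟩ | ⟨L2, i', L3, z', ε', g, tl, rfl, hc', hz', hh, htl⟩
        · refine Or.inl ⟨?_, h2, by simp [h3]⟩
          intro L1 j L2 z ε h hc
          cases L1 with
          | nil =>
            obtain ⟨rfl, rfl⟩ := List.cons.inj h
            intro h'
            exact hi ⟨z, ε, hc, by simpa using h'⟩
          | cons k L1 =>
            obtain ⟨rfl, rfl⟩ := List.cons.inj h
            have := h1 L1 j L2 z ε rfl hc
            simpa [mul_assoc] using this
        · exact Or.inr ⟨i :: L2, i', L3, z', ε', g, tl, rfl, hc', by simpa [mul_assoc] using hz',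
            by simp [hh], htl⟩

theorem pinch (Z : Set V) (hZ : ∀ (g : Q) v, g • v ∈ Z ↔ v ∈ Z)
    (hn : ∀ i, c i = none → (val i).left ∈ par Γ Zᶜ)
    (hs : ∀ i z ε, c i = some (z, ε) → z ∈ Z ∧
      ∃ b ∈ par Γ (Γ.neighborSet z ∩ Zᶜ), (val i).left = bp (gen Γ z) ε * b)
    (Λ : Set V) (L : List I) (hL : (prd val L).left ∈ par Γ Λ) :
    Pinch val c L ∨ ∀ L1 i L2 z ε, L = L1 ++ i :: L2 → c i = some (z, ε) →
      (prd val L1).right • z ∈ Λ := by
  by_contra hcon
  rw [not_or] at hcon
  obtain ⟨hp, h2⟩ := hcon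
  push Not at h2
  obtain ⟨L1, i, L2, z, ε, hL1, hc, hz⟩ := h2
  have hy : (prd val L1).right • z ∈ Z := (hZ _ _).2 (hs i z ε hc).1
  rcases pinch_aux val c Z (fun g v => (hZ g v).1) hn (fun i z ε h => (hs i z ε h).2) _ hy L 1
    with h | ⟨w, hw, hw2⟩
  · exact hp h
  have h3 : (prd val L).left ∈ par Γ {v | v ≠ (prd val L1).right • z} :=
    par_mono (fun v hv (h : v = _) => hz (by rw [← h]; exact hv)) hL
  have h4 := ReducedWord.toList_eq_nil_of_mem_of_range (MulEquiv.refl _) w
    ⟨(prd val L).left, by rw [hw, map_one, MulAut.one_apply, fY_par _ h3]⟩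
  rcases hw2 with ⟨h1, -, -⟩ | ⟨L2, i', L3, z', ε', g, tl, -, -, -, -, htl⟩
  · exact h1 L1 i L2 z ε hL1 hc (by simp)
  · rw [h4] at htl; simp at htl

end pinch

end Pool.Agent.Lib.MP_8cfc4a_al
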