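import Pool.Agent.Lib.MP_8cfc4a_al.StripGroup

/-!
A concrete family of strips: a Rips type construction.
-/

namespace Pool.Agent.Lib.MP_8cfc4a_al

open SemidirectProduct

/-- new horizontal letters -/
inductive A2 (C V : Type) : Type
  | p
  | d (c : C)
  | e (c : C)
  | w (i τ : Fin 3) (l : V)

instance {C V : Type} [Finite C] [Finite V] : Finite (A2 C V) :=
  Finite.of_surjective (Sum.elim (fun _ : Unit => (A2.p : A2 C V)) (Sum.elim A2.d (Sum.elim A2.e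
    (fun x : Fin 3 × Fin 3 × V => A2.w x.1 x.2.1 x.2.2)))) (by
      rintro (_ | c | c | ⟨i, τ, l⟩)
      · exact ⟨.inl (), rfl⟩
      · exact ⟨.inr (.inl c), rfl⟩
      · exact ⟨.inr (.inr (.inl c)), rfl⟩
      · exact ⟨.inr (.inr (.inr (i, τ, l))), rfl⟩)

/-- vertices of a strip -/
inductive Vx (C Q : Type) : Type
  | b (i : Bool) (h : Q)
  | u (i : Bool) (h : Q) (c : C)
  | u' (i : Bool) (h : Q) (c : C)
  | n1
  | n2
  | n3

instance {C Q : Type} [Finite C] [Finite Q] : Finite (Vx C Q) :=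
  Finite.of_surjective (Sum.elim (fun x : Bool × Q => (Vx.b x.1 x.2 : Vx C Q))
    (Sum.elim (fun x : Bool × Q × C => Vx.u x.1 x.2.1 x.2.2)
    (Sum.elim (fun x : Bool × Q × C => Vx.u' x.1 x.2.1 x.2.2)
    (fun x : Fin 3 => ![Vx.n1, Vx.n2, Vx.n3] x)))) (by
      rintro (⟨i, h⟩ | ⟨i, h, c⟩ | ⟨i, h, c⟩ | _ | _ | _)
      · exact ⟨.inl (i, h), rfl⟩
      · exact ⟨.inr (.inl (i, h, c)), rfl⟩
      · exact ⟨.inr (.inr (.inl (i, h, c))), rfl⟩
      · exact ⟨.inr (.inr (.inr 0)), rfl⟩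
      · exact ⟨.inr (.inr (.inr 1)), rfl⟩
      · exact ⟨.inr (.inr (.inr 2)), rfl⟩)

/-- edges of a strip -/
inductive Ed (C Q : Type) : Type
  | dE (i : Bool) (h : Q) (c : C)
  | cE (i : Bool) (h : Q) (c : C)
  | eE (i : Bool) (h : Q) (c : C)
  | pE
  | e12
  | e23
  | e34

instance {C Q : Type} [Finite C] [Finite Q] : Finite (Ed C Q) :=
  Finite.of_surjective (Sum.elim (fun x : Bool × Q × C => (Ed.dE x.1 x.2.1 x.2.2 : Ed C Q))
    (Sum.elim (fun x : Bool × Q × C => Ed.cE x.1 x.2.1 x.2.2)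
    (Sum.elim (fun x : Bool × Q × C => Ed.eE x.1 x.2.1 x.2.2)
    (fun x : Fin 4 => ![Ed.pE, Ed.e12, Ed.e23, Ed.e34] x)))) (by
      rintro (⟨i, h, c⟩ | ⟨i, h, c⟩ | ⟨i, h, c⟩ | _ | _ | _ | _)
      · exact ⟨.inl (i, h, c), rfl⟩
      · exact ⟨.inr (.inl (i, h, c)), rfl⟩
      · exact ⟨.inr (.inr (.inl (i, h, c))), rfl⟩
      · exact ⟨.inr (.inr (.inr 0)), rfl⟩
      · exact ⟨.inr (.inr (.inr 1)), rfl⟩
      · exact ⟨.inr (.inr (.inr 2)), rfl⟩
      · exact ⟨.inr (.inr (.inr 3)), rfl⟩)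

/-- input data -/
structure RD (X : Sp) where
  C : Type
  [finC : Finite C]
  cl : C → X.S
  tbl : C → Bool → Fin 3 → Fin 3 × Fin 3 × Fin 3
  l0 : X.V

attribute [instance] RD.finC

/-- the weights -/
def wv : Fin 5 → ZMod 64 := ![10, 1, 3, 20, 5]

/-- heights of the kinds of vertices -/
def HH (b ε : Bool) (x : Fin 5) (k : Fin 7) : ZMod 64 :=
  cond b (cond ε (![0, 1, 10, 13, 33, 28, 29] k) (![0, 1, 10, 7, 27, 32, 33] k))
    (![0, 1, 10, 10, 10 + wv x, 10 + wv x, 11 + wv x] k)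

/-- clusters of kinds -/
def rp (b : Bool) (k : Fin 7) : Fin 7 := cond b k (![0, 1, 2, 2, 5, 5, 6] k)

theorem HH_inj : ∀ b ε x k k', HH b ε x k = HH b ε x k' → rp b k = rp b k' := by decide

theorem wv_ne : ∀ x, wv x ≠ 0 := by decide

namespace RD
variable {X : Sp} (D : RD X)

/-- letters -/
abbrev A : Type := A2 D.C X.V
/-- components -/
abbrev J : Type := D.C × Bool × D.A
/-- position group -/
abbrev Φ : Type := X.Q × Multiplicative (ZMod 64) × Multiplicative (D.C → ZMod 2)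

/-- class of a letter -/
def cls : D.A → X.V
  | .w _ _ l => l
  | _ => D.l0

/-- type of a letter -/
def ty : D.A → Fin 3
  | .w _ τ _ => τ
  | _ => 0

/-- weight index of a letter -/
def wi : D.A → Fin 5
  | .p => 0
  | .d _ => 1
  | .e _ => 1
  | .w i _ _ => ![2, 3, 4] i

open Classical in
/-- flag of a letter -/
noncomputable def fl : D.A → D.C → ZMod 2
  | .d c => Pi.single c 1
  | .e c => Pi.single c 1
  | _ => 0

/-- the permutation of a letter of `C` -/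
abbrev sc (c : D.C) : X.Q := X.σ (D.cl c)

/-- first coordinate of a letter -/
def qq : D.A → X.Q
  | .e c => (D.sc c)⁻¹
  | _ => 1

/-- step of a letter -/
noncomputable def ρ (a : D.A) : D.Φ :=
  (D.qq a, Multiplicative.ofAdd (wv (D.wi a)), Multiplicative.ofAdd (D.fl a))

/-- first top letter -/
def w1 (j : D.J) : D.A := .w 0 (D.tbl j.1 j.2.1 (D.ty j.2.2)).1 (X.y (D.cl j.1))
/-- second top letter -/
def w2 (j : D.J) : D.A := .w 1 (D.tbl j.1 j.2.1 (D.ty j.2.2)).2.1 (D.cls j.2.2)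
/-- third top letter -/
def w3 (j : D.J) : D.A := .w 2 (D.tbl j.1 j.2.1 (D.ty j.2.2)).2.2 (X.y (D.cl j.1))

/-- source -/
def src (j : D.J) : Ed D.C X.Q → Vx D.C X.Q
  | .dE i h _ => .b i h
  | .cE i h c => .u i h c
  | .eE i h c => .b i (h * D.sc c)
  | .pE => .b false 1
  | .e12 => cond j.2.1 .n1 .n2
  | .e23 => .n2
  | .e34 => cond j.2.1 (.b true 1) .n3

/-- target -/
def dst (j : D.J) : Ed D.C X.Q → Vx D.C X.Q
  | .dE i h c => .u i h c
  | .cE i h c => .u' i h c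
  | .eE i h c => .u' i h c
  | .pE => .n1
  | .e12 => cond j.2.1 .n2 .n1
  | .e23 => .n3
  | .e34 => cond j.2.1 .n3 (.b true 1)

/-- letters of the edges -/
def lt (j : D.J) (b : Bool) : Ed D.C X.Q → X.S ⊕ D.A
  | .dE _ _ c => .inr (.d c)
  | .cE _ _ c => .inl (D.cl c)
  | .eE _ _ c => .inr (.e c)
  | .pE => .inr .p
  | .e12 => cond b (.inr (D.w1 j)) (.inl (D.cl j.1))
  | .e23 => cond b (.inr (D.w2 j)) (.inr j.2.2)
  | .e34 => cond b (.inr (D.w3 j)) (.inl (D.cl j.1))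

/-- offsets -/
noncomputable def off (j : D.J) (b : Bool) : Bool → D.Φ
  | false => 1
  | true => cond b (D.ρ .p * bp (D.ρ (D.w1 j)) j.2.1 * D.ρ (D.w2 j) * (bp (D.ρ (D.w3 j)) j.2.1)⁻¹)
      (D.ρ .p * D.ρ j.2.2)

/-- positions -/
noncomputable def pos (j : D.J) (b : Bool) : Vx D.C X.Q → D.Φ × X.Q
  | .b i h => (D.off j b i * (h, 1, 1), h)
  | .u i h c => (D.off j b i * (h, 1, 1) * D.ρ (.d c), h)
  | .u' i h c => (D.off j b i * (h, 1, 1) * D.ρ (.d c), h * D.sc c)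
  | .n1 => (D.ρ .p, 1)
  | .n2 => cond b (D.ρ .p * bp (D.ρ (D.w1 j)) j.2.1, 1) (D.ρ .p, bp (D.sc j.1) j.2.1)
  | .n3 => cond b (D.ρ .p * bp (D.ρ (D.w1 j)) j.2.1 * D.ρ (D.w2 j), 1)
      (D.ρ .p * D.ρ j.2.2, bp (D.sc j.1) j.2.1)

theorem one3 : ((1, 1, 1) : D.Φ) = 1 := rfl

theorem ρ_e (h : X.Q) (c : D.C) :
    ((h * D.sc c, 1, 1) : D.Φ) * D.ρ (.e c) = (h, 1, 1) * D.ρ (.d c) := by
  simp [ρ, qq, wi, fl]

theorem pos_dst (j b e) : D.pos j b (D.dst j e) =
    D.pos j b (D.src j e) * Sum.elim (fun s => (1, X.σ s)) (fun a => (D.ρ a, 1)) (D.lt j b e) := by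
  obtain ⟨c, ε, a⟩ := j
  cases e with
  | dE i h c' => simp [pos, src, dst, lt]
  | cE i h c' => simp [pos, src, dst, lt]
  | eE i h c' => simp [pos, src, dst, lt, mul_assoc, ρ_e]
  | pE => simp [pos, src, dst, lt, off, one3]
  | e12 => cases b <;> cases ε <;> simp [pos, src, dst, lt]
  | e23 => cases b <;> simp [pos, src, dst, lt]
  | e34 => cases b <;> cases ε <;> simp [pos, src, dst, lt, off, one3]

/-- kind of a vertex -/
def kd : Vx D.C X.Q → Fin 7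
  | .b i _ => cond i 5 0
  | .u i _ _ => cond i 6 1
  | .u' i _ _ => cond i 6 1
  | .n1 => 2
  | .n2 => 3
  | .n3 => 4

theorem ht_pos (j b v) :
    Multiplicative.toAdd (D.pos j b v).1.2.1 = HH b j.2.1 (D.wi j.2.2) (D.kd v) := by
  obtain ⟨c, ε, a⟩ := j
  rcases v with ⟨i, h⟩ | ⟨i, h, c'⟩ | ⟨i, h, c'⟩ | _ | _ | _ <;> (try cases i) <;> cases b <;>
    cases ε <;> simp [pos, off, ρ, kd, HH, w1, w2, w3, wi, wv] <;>
    first | decide | ring

/-- cluster representative -/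
def clu (b : Bool) : Vx D.C X.Q → Vx D.C X.Q
  | .b i h => .b i h
  | .u i h c => .u i h c
  | .u' i h c => .u i h c
  | .n1 => .n1
  | .n2 => cond b .n2 .n1
  | .n3 => cond b .n3 (.b true 1)

theorem ρd_inj {h h' : X.Q} {c c' : D.C}
    (H : ((h, 1, 1) : D.Φ) * D.ρ (.d c) = (h', 1, 1) * D.ρ (.d c')) : h = h' ∧ c = c' := by
  classical
  simp only [ρ, qq, wi, fl, Prod.mk_mul_mk, mul_one, one_mul, Prod.mk.injEq, true_and,
    EmbeddingLike.apply_eq_iff_eq] at H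
  refine ⟨H.1, ?_⟩
  by_contra hc
  have := congrFun H.2 c
  simp [hc] at this

theorem clu_eq (j b v v') (h : (D.pos j b v).1 = (D.pos j b v').1) : D.clu b v = D.clu b v' := by
  have h1 := HH_inj b j.2.1 (D.wi j.2.2) (D.kd v) (D.kd v')
    (by rw [← ht_pos, ← ht_pos, h])
  rcases v with ⟨i, g⟩ | ⟨i, g, c⟩ | ⟨i, g, c⟩ | _ | _ | _ <;>
    rcases v' with ⟨i', g'⟩ | ⟨i', g', c'⟩ | ⟨i', g', c'⟩ | _ | _ | _ <;>
    (try cases i) <;> (try cases i') <;> cases b <;>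
    simp only [kd, rp, cond_true, cond_false] at h1 <;>
    first
    | rfl
    | exact absurd h1 (by decide)
    | (simp only [pos, mul_assoc, mul_right_inj] at h
       obtain ⟨rfl, rfl⟩ := D.ρd_inj h
       rfl)
    | (simp [pos, off] at h
       simp [clu, h])

theorem bp_sc_ne (c : D.C) (ε : Bool) : bp (D.sc c) ε ≠ 1 := by
  cases ε <;> simp [X.σ_ne_one]

theorem i1 (j b v v') (h : D.pos j b v = D.pos j b v') : v = v' := by
  have h1 := D.clu_eq j b v v' (by rw [h])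
  have h2 := congrArg Prod.snd h
  have h3 := D.bp_sc_ne j.1 j.2.1
  rcases v with ⟨i, g⟩ | ⟨i, g, c⟩ | ⟨i, g, c⟩ | _ | _ | _ <;>
    rcases v' with ⟨i', g'⟩ | ⟨i', g', c'⟩ | ⟨i', g', c'⟩ | _ | _ | _ <;> cases b <;>
    simp only [clu, cond_true, cond_false, reduceCtorEq, Vx.b.injEq, Vx.u.injEq,
      Vx.u'.injEq] at h1 ⊢ <;>
    first
    | exact h1
    | (simp only [pos, cond_true, cond_false] at h2
       simp_all [X.σ_ne_one])

theorem i2 (j b v e s) (h1 : D.lt j b e = .inl s) (h : (D.pos j b v).1 = (D.pos j b (D.src j e)).1) :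
    v = D.src j e ∨ v = D.dst j e := by
  have h2 := D.clu_eq j b _ _ h
  obtain ⟨c, ε, a⟩ := j
  cases e <;> cases b <;> simp only [lt, cond_true, cond_false, reduceCtorEq] at h1 <;>
    cases ε <;> cases v <;> simp_all [clu, src, dst]

theorem i3 (j b e e' s s') (h1 : D.lt j b e = .inl s) (h2 : D.lt j b e' = .inl s')
    (h : D.src j e' = D.src j e ∨ D.src j e' = D.dst j e) : e = e' := by
  obtain ⟨c, ε, a⟩ := j
  cases e <;> cases b <;> simp only [lt, cond_true, cond_false, reduceCtorEq] at h1 <;>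
    cases e' <;> simp only [lt, cond_true, cond_false, reduceCtorEq] at h2 <;>
    cases ε <;> simp_all [src, dst]

theorem i4 (j b e e') (h1 : D.src j e = D.src j e') (h2 : D.lt j b e = D.lt j b e') : e = e' := by
  obtain ⟨c, ε, a⟩ := j
  cases e <;> cases e' <;> cases b <;> cases ε <;>
    simp only [src, lt, w1, w2, w3, cond_true, cond_false, reduceCtorEq, Sum.inr.injEq,
      Sum.inl.injEq, A2.d.injEq, A2.e.injEq, A2.w.injEq, Vx.b.injEq, Vx.u.injEq] at h1 h2 <;>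
    simp_all

/-- the strips -/
noncomputable def strip : Strip X where
  A := D.A
  a0 := .p
  cls := D.cls
  Φ := D.Φ
  ρ := D.ρ
  ρ_ne a h := wv_ne (D.wi a) (by simpa [ρ] using congrArg (fun φ : D.Φ => φ.2.1) h)
  J := D.J
  Y := D.J × Vx D.C X.Q
  E := D.J × Ed D.C X.Q
  comp := Prod.fst
  src e := (e.1, D.src e.1 e.2)
  dst e := (e.1, D.dst e.1 e.2)
  comp_dst _ := rfl
  lt b e := D.lt e.1 b e.2
  cls_eq := by
    rintro ⟨j, e⟩
    cases e <;> simp [lt, w1, w2, w3, cls]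
  pos b v := D.pos v.1 b v.2
  pos_dst b e := D.pos_dst e.1 b e.2
  i1 := by
    rintro b ⟨j, v⟩ ⟨j', v'⟩ (rfl : j = j') h
    rw [D.i1 j b v v' h]
  i2 := by
    rintro b ⟨j, v⟩ ⟨j', e⟩ s (rfl : j = j') h1 h2
    rcases D.i2 j b v e s h1 h2 with h | h
    · exact Or.inl (by rw [h])
    · exact Or.inr (by rw [h])
  i3 := by
    rintro b ⟨j, e⟩ ⟨j', e'⟩ s s' h1 h2 h
    obtain rfl : j' = j := by
      rcases h with h | h <;> exact congrArg Prod.fst h
    rw [D.i3 j' b e e' s s' h1 h2 (h.imp (congrArg Prod.snd) (congrArg Prod.snd))]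
  i4 := by
    rintro b ⟨j, e⟩ ⟨j', e'⟩ h1 h2
    obtain rfl : j = j' := congrArg Prod.fst h1
    rw [D.i4 j b e e' (congrArg Prod.snd h1) h2]

end RD

end Pool.Agent.Lib.MP_8cfc4a_al
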