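import Pool.Agent.Lib.MP_8cfc4a_al.Raag

/-!
Special structures on groups and their basic consequences.
-/

namespace Pool.Agent.Lib.MP_8cfc4a_al

open SemidirectProduct

section general
variable {G : Type} [Group G]

theorem exists_list {I : Type} (val : I → G) (inv : I → I) (hinv : ∀ i, val (inv i) = (val i)⁻¹)
    {T : Set G} (hT : ∀ x ∈ T, ∃ i, val i = x) {g : G} (hg : g ∈ Subgroup.closure T) :
    ∃ L : List I, (L.map val).prod = g := by
  induction hg using Subgroup.closure_induction with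
  | mem x hx => obtain ⟨i, rfl⟩ := hT x hx; exact ⟨[i], by simp⟩
  | one => exact ⟨[], by simp⟩
  | mul x y _ _ hx hy =>
    obtain ⟨L, rfl⟩ := hx
    obtain ⟨L', rfl⟩ := hy
    exact ⟨L ++ L', by simp⟩
  | inv x _ hx =>
    obtain ⟨L, rfl⟩ := hx
    refine ⟨(L.map inv).reverse, ?_⟩
    rw [List.prod_inv_reverse]
    simp [List.map_reverse, Function.comp_def, hinv]

variable {V : Type} {Γ : SimpleGraph V} {Q : Type} [Group Q] [MulAction Q V] [GAct Q Γ]

theorem prd_comp {I : Type} (Ψ : G →* Wr Γ Q) (val : I → G) (L : List I) :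
    prd (fun i => Ψ (val i)) L = Ψ (L.map val).prod := by
  simp [prd, map_list_prod, Function.comp_def]

/-- A Britton type lemma for one extra generator. -/
theorem stable_lemma (Ψ : G →* Wr Γ Q) (A : Subgroup G) (x : G)
    (hgen : Subgroup.closure ((A : Set G) ∪ {x}) = ⊤)
    (Z : Set V) (hZ : ∀ (g : Q) v, g • v ∈ Z ↔ v ∈ Z) (z : V) (hz : z ∈ Z)
    (hlk : Γ.neighborSet z ⊆ Zᶜ)
    (hA : ∀ a ∈ A, (Ψ a).left ∈ par Γ Zᶜ)
    (b : RAAG Γ) (hb : b ∈ par Γ (Γ.neighborSet z)) (hx : (Ψ x).left = gen Γ z * b)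
    (hxz : (Ψ x).right • z = z)
    (hH : ∀ a ∈ A, (Ψ a).left ∈ par Γ (Γ.neighborSet z) → x * a * x⁻¹ ∈ A ∧ x⁻¹ * a * x ∈ A)
    (g : G) (hg : (Ψ g).left ∈ par Γ Zᶜ) : g ∈ A := by
  let val : A ⊕ Bool → G := Sum.elim (fun a => a) (fun ε => bp x ε)
  let c : A ⊕ Bool → Option (V × Bool) := Sum.elim (fun _ => none) (fun ε => some (z, ε))
  obtain ⟨L, rfl⟩ := exists_list val (Sum.map (fun a => a⁻¹) (fun ε => !ε))
    (by rintro (a | ε) <;> simp [val]) (T := (A : Set G) ∪ {x})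
    (by
      rintro y (hy | rfl)
      · exact ⟨Sum.inl ⟨y, hy⟩, rfl⟩
      · exact ⟨Sum.inr true, rfl⟩) (g := g) (by rw [hgen]; trivial)
  have hxz' : ∀ ε, (Ψ (bp x ε)).right • z = z := by
    intro ε
    cases ε
    · simp only [bp_false, map_inv, inv_right]
      rw [inv_smul_eq_iff, hxz]
    · exact hxz
  have hinter : Γ.neighborSet z ∩ Zᶜ = Γ.neighborSet z := Set.inter_eq_left.2 hlk
  have hfix : ∀ (q : Q), q • z = z → ∀ v, q • v ∈ Γ.neighborSet z → v ∈ Γ.neighborSet z := by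
    intro q hq v hv
    rw [← hq] at hv
    exact (adj_smul_iff q _ _).1 hv
  have hs : ∀ i z' ε, c i = some (z', ε) → z' ∈ Z ∧
      ∃ b ∈ par Γ (Γ.neighborSet z' ∩ Zᶜ), (Ψ (val i)).left = bp (gen Γ z') ε * b := by
    rintro (a | ε) z' ε' h
    · simp [c] at h
    · simp only [c, Sum.elim_inr, Option.some.injEq, Prod.mk.injEq] at h
      obtain ⟨rfl, rfl⟩ := h
      refine ⟨hz, ?_⟩
      rw [hinter]
      cases ε
      · refine ⟨act Γ Q (Ψ x).right⁻¹ b⁻¹, act_par _ (fun v hv => hfix (Ψ x).right hxz _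
          (by simpa using hv)) (inv_mem hb), ?_⟩
        have h1 := hxz' false
        simp only [bp_false, map_inv, inv_right] at h1
        have h2 : (gen Γ z * b)⁻¹ = (gen Γ z)⁻¹ * b⁻¹ := by
          rw [(commute_par hb).eq, mul_inv_rev]
        simp only [val, Sum.elim_inr, bp_false, map_inv (f := Ψ), inv_left, hx, h2, map_mul]
        rw [map_inv (act Γ Q (Ψ x).right⁻¹) (gen Γ z), act_gen, h1]
      · exact ⟨b, hb, hx⟩
  have hn : ∀ i, c i = none → (Ψ (val i)).left ∈ par Γ Zᶜ := by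
    rintro (a | ε) h
    · exact hA a a.2
    · simp [c] at h
  induction hn' : L.length using Nat.strong_induction_on generalizing L with
  | _ n ih =>
  rcases pinch (fun i => Ψ (val i)) c Z hZ hn hs Zᶜ L (by rw [prd_comp]; exact hg) with h | h
  · obtain ⟨L1, i, L2, i', L3, z1, z2, ε, rfl, hc, hc', -, h2⟩ := h
    rcases i with a | ε1
    · simp [c] at hc
    rcases i' with a | ε2
    · simp [c] at hc'
    simp only [c, Sum.elim_inr, Option.some.injEq, Prod.mk.injEq] at hc hc'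
    obtain ⟨rfl, rfl⟩ := hc
    obtain ⟨-, rfl⟩ := hc'
    have h3 := par_of_act _ (hfix _ (hxz' ε1)) h2
    rw [prd_comp] at h3
    have h4 := ih L2.length (by rw [← hn']; simp; omega) L2 (par_mono hlk h3) rfl
    have h5 : bp x ε1 * (L2.map val).prod * (bp x ε1)⁻¹ ∈ A := by
      cases ε1
      · simpa using (hH _ h4 h3).2
      · simpa using (hH _ h4 h3).1
    have h6 : ((L1 ++ Sum.inl ⟨_, h5⟩ :: L3).map val).prod =
        ((L1 ++ Sum.inr ε1 :: (L2 ++ Sum.inr (!ε1) :: L3)).map val).prod := by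
      simp [val, mul_assoc]
    rw [← h6] at hg ⊢
    exact ih _ (by rw [← hn']; simp) _ hg rfl
  · apply Subgroup.list_prod_mem
    intro y hy
    obtain ⟨i, hi, rfl⟩ := List.mem_map.1 hy
    rcases i with a | ε
    · exact a.2
    · obtain ⟨L1, L2, rfl⟩ := List.append_of_mem hi
      exact absurd ((hZ _ _).2 hz) (h L1 _ L2 z ε rfl rfl)

end general

/-- The label of an edge end at the base state. -/
def lab {S V Q : Type} [Group Q] [MulAction Q V] (y : S → V) (σ : S → Q) (l : S × Bool) : V :=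
  cond l.2 (y l.1) ((σ l.1)⁻¹ • y l.1)

/-- A special structure: a group with a homomorphism to a semidirect product of a right-angled
Artin group and a finite group which is a local isometry. -/
structure Sp where
  G : Type
  [grp : Group G]
  S : Type
  [finS : Finite S]
  V : Type
  [finV : Finite V]
  Γ : SimpleGraph V
  Q : Type
  [grpQ : Group Q]
  [finQ : Finite Q]
  [actQ : MulAction Q V]
  [gact : GAct Q Γ]
  val : S → G
  y : S → V
  σ : S → Q
  Ψ : G →* Wr Γ Q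
  fp : Group.IsFinitelyPresented G
  hgen : Subgroup.closure (Set.range val) = ⊤
  hΨ : ∀ s, Ψ (val s) = ⟨gen Γ (y s), σ s⟩
  inj : Function.Injective (lab y σ)
  sq : ∀ k m : S × Bool, Γ.Adj (lab y σ k) (lab y σ m) → ∃ k' m' : S × Bool,
    bp (val k.1) k.2 * bp (val m'.1) m'.2 = bp (val m.1) m.2 * bp (val k'.1) k'.2 ∧
    k'.2 = k.2 ∧ bp (σ m.1) m.2 • lab y σ k' = lab y σ k

attribute [instance] Sp.grp Sp.finS Sp.finV Sp.grpQ Sp.finQ Sp.actQ Sp.gact

namespace Sp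
variable (X : Sp)

/-- value of a signed letter -/
def vl (l : X.S × Bool) : X.G := bp (X.val l.1) l.2
/-- label of a signed letter -/
abbrev lb (l : X.S × Bool) : X.V := lab X.y X.σ l
/-- value of a word -/
def vw (w : List (X.S × Bool)) : X.G := (w.map X.vl).prod

@[simp] theorem vw_nil : X.vw [] = 1 := rfl
@[simp] theorem vw_cons (l) (w) : X.vw (l :: w) = X.vl l * X.vw w := by simp [vw]
@[simp] theorem vw_append (w w') : X.vw (w ++ w') = X.vw w * X.vw w' := by simp [vw]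

theorem Ψ_vl_left (l : X.S × Bool) : (X.Ψ (X.vl l)).left = bp (gen X.Γ (X.lb l)) l.2 := by
  obtain ⟨s, _ | _⟩ := l <;> simp [vl, lab, X.hΨ]

theorem Ψ_vl_right (l : X.S × Bool) : (X.Ψ (X.vl l)).right = bp (X.σ l.1) l.2 := by
  obtain ⟨s, _ | _⟩ := l <;> simp [vl, X.hΨ]

theorem lb_not (l : X.S × Bool) : bp (X.σ l.1) l.2 • X.lb (l.1, !l.2) = X.lb l := by
  obtain ⟨s, _ | _⟩ := l <;> simp [lab]

theorem σ_ne_one (s : X.S) : X.σ s ≠ 1 := by
  intro h
  have : X.lb (s, true) = X.lb (s, false) := by simp [lab, h]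
  simpa using X.inj this

/-- All labels along the path lie in `Λ`. -/
def AllIn (Λ : Set X.V) (w : List (X.S × Bool)) : Prop :=
  ∀ w1 l w2, w = w1 ++ l :: w2 → (X.Ψ (X.vw w1)).right • X.lb l ∈ Λ

theorem AllIn.cons {Λ : Set X.V} {l w} (h : X.AllIn Λ (l :: w)) :
    X.lb l ∈ Λ ∧ X.AllIn {v | bp (X.σ l.1) l.2 • v ∈ Λ} w := by
  refine ⟨by simpa using h [] l w rfl, ?_⟩
  rintro w1 m w2 rfl
  have := h (l :: w1) m w2 rfl
  simpa [Ψ_vl_right, mul_smul] using this

theorem AllIn.mono {Λ Λ' : Set X.V} {w} (h : X.AllIn Λ w) (h' : Λ ⊆ Λ') : X.AllIn Λ' w :=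
  fun w1 l w2 e => h' (h w1 l w2 e)

theorem slide (w : List (X.S × Bool)) : ∀ k, X.AllIn (X.Γ.neighborSet (X.lb k)) w →
    ∃ w' k', w'.length = w.length ∧ (X.vl k)⁻¹ * X.vw w = X.vw w' * (X.vl k')⁻¹ ∧ k'.2 = k.2 ∧
      (X.Ψ (X.vw w)).right • X.lb k' = X.lb k := by
  induction w with
  | nil => intro k _; exact ⟨[], k, rfl, by simp, rfl, by simp⟩
  | cons m w ih =>
    intro k h
    obtain ⟨h1, h2⟩ := AllIn.cons X h
    obtain ⟨k1, m', e1, e2, e3⟩ := X.sq k m h1
    obtain ⟨w', k', f1, f2, f3, f4⟩ := ih k1 (AllIn.mono X h2 (fun v hv => by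
      have hv' : X.Γ.Adj (X.lb k) (bp (X.σ m.1) m.2 • v) := hv
      rw [← show bp (X.σ m.1) m.2 • X.lb k1 = X.lb k from e3] at hv'
      exact (adj_smul_iff _ _ _).1 hv'))
    refine ⟨m' :: w', k', by simp [f1], ?_, f3.trans e2, ?_⟩
    · have e1' : X.vl k * X.vl m' = X.vl m * X.vl k1 := e1
      rw [vw_cons, vw_cons, mul_assoc, ← f2, ← mul_assoc, ← mul_assoc]
      congr 1
      rw [inv_mul_eq_iff_eq_mul, ← mul_assoc, e1']; simp
    · simp only [vw_cons, map_mul, mul_right, mul_smul, f4, Ψ_vl_right]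
      exact e3

theorem special (w : List (X.S × Bool)) : ∀ Λ : Set X.V, (X.Ψ (X.vw w)).left ∈ par X.Γ Λ →
    ∃ w', X.vw w' = X.vw w ∧ w'.length ≤ w.length ∧ X.AllIn Λ w' := by
  induction hn : w.length using Nat.strong_induction_on generalizing w with
  | _ n ih =>
  intro Λ hw
  have hp : ∀ L, prd (fun l => X.Ψ (X.vl l)) L = X.Ψ (X.vw L) := fun L => prd_comp _ _ _
  rcases pinch (fun l => X.Ψ (X.vl l)) (fun l => some (X.lb l, l.2)) Set.univ (by simp)
    (by simp) (by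
      intro l z ε h
      simp only [Option.some.injEq, Prod.mk.injEq] at h
      obtain ⟨rfl, rfl⟩ := h
      exact ⟨trivial, 1, one_mem _, by simp [Ψ_vl_left]⟩) Λ w (by rw [hp]; exact hw) with h | h
  · obtain ⟨w1, l, w2, l', w3, z, z', ε, rfl, hc, hc', h1, h2⟩ := h
    simp only [Option.some.injEq, Prod.mk.injEq] at hc hc'
    obtain ⟨rfl, rfl⟩ := hc
    obtain ⟨rfl, hl'⟩ := hc'
    rw [hp, Ψ_vl_right] at h1 h2
    have h3 : (X.Ψ (X.vw w2)).left ∈ par X.Γ (X.Γ.neighborSet (X.lb (l.1, !l.2))) := by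
      refine par_of_act _ (fun v hv => ?_) h2
      rw [← X.lb_not l] at hv
      exact (adj_smul_iff _ _ _).1 hv
    obtain ⟨w2', e1, e2, e3⟩ := ih w2.length (by rw [← hn]; simp; omega) w2 rfl _ h3
    obtain ⟨w', k', f1, f2, f3, f4⟩ := X.slide w2' _ e3
    have hk : k' = l' := by
      apply X.inj
      apply MulAction.injective (X.Ψ (X.vw w2)).right
      apply MulAction.injective (bp (X.σ l.1) l.2)
      simp only
      rw [← mul_smul _ _ (lab X.y X.σ l'), h1, ← e1, f4, X.lb_not]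
    subst hk
    have h4 : X.vw (w1 ++ (w' ++ w3)) = X.vw (w1 ++ l :: (w2 ++ k' :: w3)) := by
      have : (X.vl (l.1, !l.2))⁻¹ = X.vl l := by simp [vl]
      rw [this, e1] at f2
      simp only [vw_append, vw_cons]
      rw [← mul_assoc (X.vl l), f2]
      simp
    obtain ⟨w'', g1, g2, g3⟩ := ih (w1 ++ (w' ++ w3)).length (by rw [← hn]; simp; omega) _ rfl Λ
      (by rw [h4]; exact hw)
    refine ⟨w'', g1.trans h4, g2.trans ?_, g3⟩
    rw [← hn]; simp; omega
  · refine ⟨w, rfl, hn.le, fun w1 l w2 e => ?_⟩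
    have := h w1 l w2 _ _ e rfl
    rwa [hp] at this

theorem exists_word (g : X.G) : ∃ w, X.vw w = g :=
  exists_list X.vl (fun l => (l.1, !l.2)) (fun l => by simp [vl]) (T := Set.range X.val)
    (by rintro _ ⟨s, rfl⟩; exact ⟨(s, true), rfl⟩) (by rw [X.hgen]; trivial)

theorem convex (T : Set X.S) (Λ : Set X.V) (h1 : ∀ s ∈ T, ∀ v, X.σ s • v ∈ Λ ↔ v ∈ Λ)
    (h2 : ∀ l, X.lb l ∈ Λ → l.1 ∈ T) (g : X.G) (hg : (X.Ψ g).left ∈ par X.Γ Λ) :
    g ∈ Subgroup.closure (X.val '' T) := by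
  obtain ⟨w, rfl⟩ := X.exists_word g
  obtain ⟨w', e, -, h⟩ := X.special w Λ hg
  rw [← e]
  clear e hg
  induction w' with
  | nil => simp
  | cons l w' ih =>
    obtain ⟨h3, h4⟩ := AllIn.cons X h
    have h5 := h2 l h3
    rw [vw_cons]
    refine mul_mem (bp_mem (Subgroup.subset_closure (Set.mem_image_of_mem _ h5)) _) (ih (AllIn.mono X h4 ?_))
    intro v hv
    obtain ⟨s, _ | _⟩ := l
    · exact (h1 s h5 _).1 (by simpa using (h1 s h5 _).2 ((h1 s h5 _).2 hv))
    · exact (h1 s h5 _).1 hv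

theorem faithful (g : X.G) (hg : (X.Ψ g).left = 1) : g = 1 := by
  have := X.convex ∅ ∅ (by simp) (by simp) g (by rw [hg]; exact one_mem _)
  simpa using this

theorem left_mem (Z : Set X.V) (hZ : ∀ (g : X.Q) v, g • v ∈ Z ↔ v ∈ Z) (hy : ∀ s, X.y s ∉ Z)
    (g : X.G) : (X.Ψ g).left ∈ par X.Γ Zᶜ := by
  have hg : g ∈ Subgroup.closure (Set.range X.val) := by rw [X.hgen]; trivial
  have hc : ∀ (q : X.Q), ∀ v ∈ Zᶜ, q • v ∈ Zᶜ := fun q v hv h => hv ((hZ _ _).1 h)
  induction hg using Subgroup.closure_induction with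
  | mem x hx => obtain ⟨s, rfl⟩ := hx; rw [X.hΨ]; exact gen_mem_par (hy s)
  | one => simp
  | mul x y _ _ hx hy =>
    rw [map_mul, mul_left]
    exact mul_mem hx (act_par _ (hc _) hy)
  | inv x _ hx =>
    rw [map_inv, inv_left]
    exact act_par _ (hc _) (inv_mem hx)

end Sp

end Pool.Agent.Lib.MP_8cfc4a_al
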