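import Pool.Agent.Lib.MP_8cfc4a_al.Special

/-!
Attaching strips of squares to a group with a special structure.
-/

namespace Pool.Agent.Lib.MP_8cfc4a_al

open SemidirectProduct

/-! ### Adding generators and relators -/
section Ag
variable {G : Type} [Group G] {T : Type}

/-- Adjoin free generators and relators. -/
abbrev Ag (R : Set (Monoid.Coprod G (FreeGroup T))) : Type :=
  Monoid.Coprod G (FreeGroup T) ⧸ Subgroup.normalClosure R

variable (R : Set (Monoid.Coprod G (FreeGroup T)))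

/-- the old group -/
def agι : G →* Ag R := (QuotientGroup.mk' _).comp Monoid.Coprod.inl
/-- the new generators -/
def agn (t : T) : Ag R := QuotientGroup.mk' _ (Monoid.Coprod.inr (FreeGroup.of t))

theorem ag_fp [Group.IsFinitelyPresented G] [Finite T] (hR : R.Finite) :
    Group.IsFinitelyPresented (Ag R) :=
  Group.IsFinitelyPresented.quotient _ ⟨R, hR, rfl⟩

theorem ag_rel {r} (hr : r ∈ R) :
    Monoid.Coprod.lift (agι R) (FreeGroup.lift (agn R)) r = 1 := by
  have : Monoid.Coprod.lift (agι R) (FreeGroup.lift (agn R)) = QuotientGroup.mk' _ := by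
    ext <;> simp [agι, agn]
  rw [this]
  exact (QuotientGroup.eq_one_iff _).2 (Subgroup.subset_normalClosure hr)

theorem ag_lift {W : Type} [Group W] (μ : G →* W) (κ : T → W)
    (h : ∀ r ∈ R, Monoid.Coprod.lift μ (FreeGroup.lift κ) r = 1) :
    ∃ f : Ag R →* W, (∀ g, f (agι R g) = μ g) ∧ ∀ t, f (agn R t) = κ t :=
  ⟨QuotientGroup.lift _ (Monoid.Coprod.lift μ (FreeGroup.lift κ))
    (Subgroup.normalClosure_le_normal (N := MonoidHom.ker _) h), by simp [agι], by simp [agn]⟩

theorem ag_gen (K : Subgroup (Ag R)) (h1 : ∀ g, agι R g ∈ K) (h2 : ∀ t, agn R t ∈ K) : K = ⊤ := by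
  rw [eq_top_iff]
  rintro x -
  obtain ⟨x, rfl⟩ := QuotientGroup.mk'_surjective _ x
  induction x using Monoid.Coprod.induction_on with
  | inl g => exact h1 g
  | inr w =>
    induction w using FreeGroup.induction_on with
    | C1 => simp
    | of t => exact h2 t
    | inv_of t ht => simpa using ht
    | mul a b ha hb => simpa using mul_mem ha hb
  | mul a b ha hb => simpa using mul_mem ha hb

end Ag

/-! ### A wreath product -/

/-- The wreath product of `Q` with the permutations of `I`, times a sign. -/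
@[ext] structure WQ (I Q : Type) where
  γ : I → Q
  θ : Equiv.Perm I
  κ : ℤˣ

namespace WQ
variable {I Q : Type} [Group Q]

instance : Mul (WQ I Q) := ⟨fun a b => ⟨fun i => a.γ (b.θ i) * b.γ i, a.θ * b.θ, a.κ * b.κ⟩⟩
instance : One (WQ I Q) := ⟨⟨fun _ => 1, 1, 1⟩⟩
instance : Inv (WQ I Q) := ⟨fun a => ⟨fun i => (a.γ (a.θ⁻¹ i))⁻¹, a.θ⁻¹, a.κ⁻¹⟩⟩
@[simp] theorem mul_γ (a b : WQ I Q) (i) : (a * b).γ i = a.γ (b.θ i) * b.γ i := rfl
@[simp] theorem mul_θ (a b : WQ I Q) : (a * b).θ = a.θ * b.θ := rfl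
@[simp] theorem mul_κ (a b : WQ I Q) : (a * b).κ = a.κ * b.κ := rfl
@[simp] theorem one_γ (i) : (1 : WQ I Q).γ i = 1 := rfl
@[simp] theorem one_θ : (1 : WQ I Q).θ = 1 := rfl
@[simp] theorem one_κ : (1 : WQ I Q).κ = 1 := rfl
@[simp] theorem inv_γ (a : WQ I Q) (i) : (a⁻¹).γ i = (a.γ (a.θ⁻¹ i))⁻¹ := rfl
@[simp] theorem inv_θ (a : WQ I Q) : (a⁻¹).θ = a.θ⁻¹ := rfl
@[simp] theorem inv_κ (a : WQ I Q) : (a⁻¹).κ = a.κ⁻¹ := rfl

instance : Group (WQ I Q) := Group.ofLeftAxioms
  (fun a b c => by ext <;> simp [mul_assoc])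
  (fun a => by ext <;> simp)
  (fun a => by ext <;> simp)

instance [Finite I] [Finite Q] : Finite (WQ I Q) :=
  Finite.of_injective (fun a : WQ I Q => (a.γ, a.θ, a.κ)) (fun a b h => by
    simp only [Prod.mk.injEq] at h
    exact WQ.ext h.1 h.2.1 h.2.2)

end WQ

/-- Vertices of the new graph. -/
inductive V2 (I Q V J : Type) : Type
  | h (i : I) (o : Option V)
  | v (g : WQ I Q) (j : J)

namespace V2
variable {I Q V J : Type} [Group Q] [MulAction Q V]

instance : SMul (WQ I Q) (V2 I Q V J) := ⟨fun a x => match x with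
  | .h i o => .h (a.θ i) (o.map fun v => a.γ i • v)
  | .v g j => .v (a * g) j⟩

@[simp] theorem smul_h (a : WQ I Q) (i : I) (o : Option V) :
    a • (V2.h i o : V2 I Q V J) = .h (a.θ i) (o.map fun v => a.γ i • v) := rfl
@[simp] theorem smul_v (a g : WQ I Q) (j : J) :
    a • (V2.v g j : V2 I Q V J) = .v (a * g) j := rfl

instance : MulAction (WQ I Q) (V2 I Q V J) where
  one_smul x := by cases x <;> simp
  mul_smul a b x := by cases x <;> simp [mul_assoc, mul_smul, Function.comp_def]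

instance [Finite I] [Finite Q] [Finite V] [Finite J] : Finite (V2 I Q V J) :=
  Finite.of_surjective (Sum.elim (fun p : I × Option V => (V2.h p.1 p.2 : V2 I Q V J))
    (fun p : WQ I Q × J => V2.v p.1 p.2)) (by
      rintro (⟨i, o⟩ | ⟨g, j⟩)
      · exact ⟨Sum.inl (i, o), rfl⟩
      · exact ⟨Sum.inr (g, j), rfl⟩)

end V2

/-- Adjacency in the cone over a graph. -/
def adjO {V : Type} (Γ : SimpleGraph V) : Option V → Option V → Prop
  | some v, some v' => Γ.Adj v v'
  | none, some _ => True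
  | some _, none => True
  | none, none => False

/-- Data of a family of strips. -/
structure Strip (X : Sp) where
  A : Type
  [finA : Finite A]
  a0 : A
  cls : A → X.V
  Φ : Type
  [grpΦ : Group Φ]
  [finΦ : Finite Φ]
  ρ : A → Φ
  ρ_ne : ∀ a, ρ a ≠ 1
  J : Type
  [finJ : Finite J]
  Y : Type
  [finY : Finite Y]
  E : Type
  [finE : Finite E]
  comp : Y → J
  src : E → Y
  dst : E → Y
  comp_dst : ∀ e, comp (dst e) = comp (src e)
  lt : Bool → E → X.S ⊕ A
  cls_eq : ∀ e, Sum.elim X.y cls (lt true e) = Sum.elim X.y cls (lt false e)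
  pos : Bool → Y → Φ × X.Q
  pos_dst : ∀ b e, pos b (dst e) =
    pos b (src e) * Sum.elim (fun s => (1, X.σ s)) (fun a => (ρ a, 1)) (lt b e)
  i1 : ∀ b v v', comp v = comp v' → pos b v = pos b v' → v = v'
  i2 : ∀ b v e s, comp v = comp (src e) → lt b e = Sum.inl s →
    (pos b v).1 = (pos b (src e)).1 → v = src e ∨ v = dst e
  i3 : ∀ b e e' s s', lt b e = Sum.inl s → lt b e' = Sum.inl s' →
    (src e' = src e ∨ src e' = dst e) → e = e'
  i4 : ∀ b e e', src e = src e' → lt b e = lt b e' → e = e'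

attribute [instance] Strip.finA Strip.grpΦ Strip.finΦ Strip.finJ Strip.finY Strip.finE

namespace Strip
variable {X : Sp} (T : Strip X)

/-- pieces -/
abbrev I : Type := T.Φ ⊕ ((T.Φ × X.Q) × T.A)
/-- the new finite group -/
abbrev Q' : Type := WQ T.I X.Q
/-- the new vertices -/
abbrev V' : Type := V2 T.I X.Q X.V T.J

/-- step of a horizontal letter -/
def hp (l : X.S ⊕ T.A) : T.Φ × X.Q := Sum.elim (fun s => (1, X.σ s)) (fun a => (T.ρ a, 1)) l

theorem pos_dst' (b e) : T.pos b (T.dst e) = T.pos b (T.src e) * T.hp (T.lt b e) := T.pos_dst b e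

/-- embedding of the position group -/
def emb : T.Φ × X.Q →* T.Q' where
  toFun p := ⟨Sum.elim (fun _ => p.2) (fun _ => 1),
    Equiv.sumCongr (Equiv.mulLeft p.1) (Equiv.prodCongr (Equiv.mulLeft p) (Equiv.refl _)), 1⟩
  map_one' := by
    ext (i | ⟨p, a⟩) <;> simp
  map_mul' p q := by
    ext (i | ⟨r, a⟩) <;> simp [mul_assoc]

@[simp] theorem emb_θ_inl (p : T.Φ × X.Q) (φ : T.Φ) :
    (T.emb p).θ (Sum.inl φ) = Sum.inl (p.1 * φ) := rfl
@[simp] theorem emb_θ_inr (p r : T.Φ × X.Q) (a : T.A) :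
    (T.emb p).θ (Sum.inr (r, a)) = Sum.inr (p * r, a) := rfl
@[simp] theorem emb_γ_inl (p : T.Φ × X.Q) (φ : T.Φ) : (T.emb p).γ (Sum.inl φ) = p.2 := rfl
@[simp] theorem emb_γ_inr (p : T.Φ × X.Q) (r) : (T.emb p).γ (Sum.inr r) = 1 := rfl
@[simp] theorem emb_κ (p : T.Φ × X.Q) : (T.emb p).κ = 1 := rfl

theorem emb_inj : Function.Injective T.emb := by
  intro p q h
  have := congrArg (fun g => g • (V2.h (Sum.inr (1, T.a0)) none : T.V')) h
  simpa using this

/-- label of a horizontal letter -/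
def hl : X.S ⊕ T.A → T.V'
  | .inl s => .h (.inl 1) (some (X.y s))
  | .inr a => .h (.inr (1, a)) (some (T.cls a))

/-- label of an edge of a strip -/
def slab (b : Bool) (e : T.E) : T.V' := T.emb (T.pos b (T.src e)) • T.hl (T.lt b e)

/-- piece of an edge of a strip -/
def pc (b : Bool) (e : T.E) : T.I :=
  Sum.elim (fun _ => Sum.inl (T.pos b (T.src e)).1) (fun a => Sum.inr (T.pos b (T.src e), a))
    (T.lt b e)

/-- twist of an edge of a strip -/
def tw (b : Bool) (e : T.E) : X.Q :=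
  Sum.elim (fun _ => (T.pos b (T.src e)).2) (fun _ => 1) (T.lt b e)

theorem slab_eq (b e) : T.slab b e =
    .h (T.pc b e) (some (T.tw b e • Sum.elim X.y T.cls (T.lt b e))) := by
  unfold slab pc tw
  rcases T.lt b e with s | a <;> simp [hl]

theorem pc_inj (b e e') (hc : T.comp (T.src e) = T.comp (T.src e')) (h : T.pc b e = T.pc b e') :
    e = e' := by
  unfold pc at h
  rcases h1 : T.lt b e with s | a <;> rcases h2 : T.lt b e' with s' | a' <;>
    simp only [h1, h2, Sum.elim_inl, Sum.elim_inr, Sum.inl.injEq, Sum.inr.injEq, Prod.mk.injEq,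
      reduceCtorEq] at h
  · exact T.i3 b e e' s s' h1 h2 (T.i2 b _ e s hc.symm h1 h.symm)
  · exact T.i4 b e e' (T.i1 b _ _ hc h.1) (by rw [h1, h2, h.2])

theorem exists_σJ (j : T.J) : ∃ q : T.Q', q.κ = -1 ∧
    ∀ e, T.comp (T.src e) = j → q • T.slab true e = T.slab false e := by
  have hinj : ∀ b, Function.Injective (fun e : {e // T.comp (T.src e) = j} => T.pc b e.1) :=
    fun b e e' h => Subtype.ext (T.pc_inj b _ _ (e.2.trans e'.2.symm) h)
  obtain ⟨θ, hθ⟩ := Equiv.Perm.exists_extending_pair _ _ (hinj true) (hinj false)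
  refine ⟨⟨Function.extend (fun e : {e // T.comp (T.src e) = j} => T.pc true e.1)
    (fun e => T.tw false e.1 * (T.tw true e.1)⁻¹) (fun _ => 1), θ, -1⟩, rfl, fun e he => ?_⟩
  have h1 := hθ ⟨e, he⟩
  have h2 := (hinj true).extend_apply (fun e => T.tw false e.1 * (T.tw true e.1)⁻¹)
    (fun _ => 1) ⟨e, he⟩
  simp only at h1 h2
  simp only [slab_eq, V2.smul_h, h1, h2, Option.map_some, T.cls_eq e, mul_smul, inv_smul_smul]

/-- the permutation attached to a component -/
noncomputable def σJ (j : T.J) : T.Q' := (T.exists_σJ j).choose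

theorem σJ_κ (j) : (T.σJ j).κ = -1 := (T.exists_σJ j).choose_spec.1
theorem σJ_slab (e) : T.σJ (T.comp (T.src e)) • T.slab true e = T.slab false e :=
  (T.exists_σJ _).choose_spec.2 e rfl

/-- adjacency -/
def adj2 : T.V' → T.V' → Prop
  | .h i o, .h i' o' => i = i' ∧ adjO X.Γ o o'
  | .v g j, .h i o => ∃ e, T.comp (T.src e) = j ∧ V2.h i o = g • T.slab false e
  | .h i o, .v g j => ∃ e, T.comp (T.src e) = j ∧ V2.h i o = g • T.slab false e
  | .v _ _, .v _ _ => False

/-- the new graph -/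
def Γ' : SimpleGraph T.V' where
  Adj := T.adj2
  symm := ⟨by
    rintro (⟨i, _ | o⟩ | ⟨g, j⟩) (⟨i', _ | o'⟩ | ⟨g', j'⟩) h <;>
      first | exact h | exact ⟨h.1.symm, h.2⟩ | exact ⟨h.1.symm, h.2.symm⟩⟩
  loopless := ⟨by
    rintro (⟨i, _ | o⟩ | ⟨g, j⟩) h
    · exact h.2
    · exact h.2.ne rfl
    · exact h⟩

theorem adj_hh (i i' o o') : T.Γ'.Adj (.h i o) (.h i' o') ↔ i = i' ∧ adjO X.Γ o o' := Iff.rfl
theorem adj_vv (g g' j j') : ¬ T.Γ'.Adj (.v g j) (.v g' j') := id
theorem adj_v (g j x) : T.Γ'.Adj (.v g j) x ↔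
    ∃ e, T.comp (T.src e) = j ∧ x = g • T.slab false e := by
  cases x with
  | h i o => exact Iff.rfl
  | v g' j' =>
    refine ⟨fun h => h.elim, ?_⟩
    rintro ⟨e, -, h⟩
    simp [slab_eq] at h

instance : GAct T.Q' T.Γ' where
  adj q := by
    have key : ∀ g j x, T.Γ'.Adj (.v g j) x → T.Γ'.Adj (q • .v g j) (q • x) := by
      intro g j x h
      obtain ⟨e, he, rfl⟩ := (T.adj_v _ _ _).1 h
      exact (T.adj_v _ _ _).2 ⟨e, he, by simp [mul_smul]⟩
    rintro (⟨i, o⟩ | ⟨g, j⟩) (⟨i', o'⟩ | ⟨g', j'⟩) h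
    · obtain ⟨rfl, h⟩ := h
      refine ⟨rfl, ?_⟩
      rcases o with _ | o <;> rcases o' with _ | o'
      · exact h
      · exact h
      · exact h
      · exact GAct.adj (Γ := X.Γ) _ _ _ h
    · exact (key _ _ _ h.symm).symm
    · exact key _ _ _ h
    · exact h.elim

/-- label of the new letters -/
def y' : (X.S ⊕ T.A) ⊕ T.Y → T.V'
  | .inl l => T.hl l
  | .inr v => .v (T.emb (T.pos false v))⁻¹ (T.comp v)

/-- permutation of the new letters -/
noncomputable def σ' : (X.S ⊕ T.A) ⊕ T.Y → T.Q'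
  | .inl l => T.emb (T.hp l)
  | .inr v => (T.emb (T.pos false v))⁻¹ * T.σJ (T.comp v) * T.emb (T.pos true v)

/-- horizontal end labels -/
def hlab : X.S ⊕ T.A → Bool → T.V'
  | .inl s, ε => .h (.inl 1) (some (X.lb (s, ε)))
  | .inr a, true => .h (.inr (1, a)) (some (T.cls a))
  | .inr a, false => .h (.inr (((T.ρ a)⁻¹, 1), a)) (some (T.cls a))

theorem hlab_true (l) : T.hlab l true = T.hl l := by cases l <;> rfl
theorem hlab_false (l) : T.hlab l false = (T.emb (T.hp l))⁻¹ • T.hl l := by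
  rw [← map_inv]
  cases l <;> simp [hlab, hl, hp, lab]

theorem lab_inl (l ε) : lab T.y' T.σ' (.inl l, ε) = T.hlab l ε := by
  cases ε
  · rw [hlab_false]; rfl
  · rw [hlab_true]; rfl

theorem lab_inr_true (v) :
    lab T.y' T.σ' (.inr v, true) = .v (T.emb (T.pos false v))⁻¹ (T.comp v) := rfl
theorem lab_inr_false (v) : lab T.y' T.σ' (.inr v, false) =
    .v ((T.emb (T.pos true v))⁻¹ * (T.σJ (T.comp v))⁻¹) (T.comp v) := by
  simp [lab, y', σ', mul_assoc]

theorem hlab_inj {l l' ε ε'} (h : T.hlab l ε = T.hlab l' ε') : l = l' ∧ ε = ε' := by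
  rcases l with s | a <;> rcases l' with s' | a' <;> cases ε <;> cases ε' <;>
    simp only [hlab, V2.h.injEq, Sum.inl.injEq, Sum.inr.injEq, Prod.mk.injEq, reduceCtorEq,
      false_and, true_and, Option.some.injEq, and_false, and_true] at h ⊢
  · simpa using X.inj h
  · simpa using X.inj h
  · simpa using X.inj h
  · simpa using X.inj h
  · exact h.1.2
  · exact T.ρ_ne a (by simpa using (Prod.ext_iff.1 h.1.1).1)
  · exact T.ρ_ne a' (by simpa using (Prod.ext_iff.1 h.1.1).1)
  · exact h.1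

theorem lab_inj : Function.Injective (lab T.y' T.σ') := by
  rintro ⟨l | v, ε⟩ ⟨l' | v', ε'⟩ h
  · rw [lab_inl, lab_inl] at h
    obtain ⟨rfl, rfl⟩ := T.hlab_inj h
    rfl
  · rw [lab_inl] at h
    cases l <;> cases ε <;> cases ε' <;> simp [hlab, lab_inr_true, lab_inr_false] at h
  · rw [lab_inl] at h
    cases l' <;> cases ε <;> cases ε' <;> simp [hlab, lab_inr_true, lab_inr_false] at h
  · cases ε <;> cases ε' <;> simp only [lab_inr_true, lab_inr_false, V2.v.injEq] at h
    · obtain ⟨h1, h2⟩ := h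
      rw [h2, mul_left_inj, inv_inj] at h1
      rw [T.i1 _ _ _ h2 (T.emb_inj h1)]
    · have := congrArg WQ.κ h.1
      simp [σJ_κ] at this
    · have := congrArg WQ.κ h.1
      simp [σJ_κ] at this
    · obtain ⟨h1, h2⟩ := h
      rw [inv_inj] at h1
      rw [T.i1 _ _ _ h2 (T.emb_inj h1)]

theorem key (b v e l ε) (hc : T.comp v = T.comp (T.src e))
    (h : T.hlab l ε = (T.emb (T.pos b v))⁻¹ • T.slab b e) :
    (v = T.src e ∧ l = T.lt b e ∧ ε = true) ∨ (v = T.dst e ∧ l = T.lt b e ∧ ε = false) := by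
  have h1 : v = T.src e ∨ v = T.dst e := by
    rw [slab, ← mul_smul, ← map_inv, ← map_mul] at h
    obtain ⟨p, hp0⟩ : ∃ p, p = (T.pos b v)⁻¹ * T.pos b (T.src e) := ⟨_, rfl⟩
    rw [← hp0] at h
    rw [eq_inv_mul_iff_mul_eq] at hp0
    rcases h2 : T.lt b e with s | a
    · rw [h2] at h
      refine T.i2 b v e s hc h2 ?_
      rcases l with s' | a' <;> cases ε <;> simp [hlab, hl] at h <;>
        simp [← hp0, ← h.1]
    · rw [h2] at h
      rcases l with s' | a' <;> cases ε <;> simp [hlab, hl] at h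
      · right
        refine T.i1 b _ _ (hc.trans (T.comp_dst e).symm) ?_
        rw [T.pos_dst', h2, ← h.1.2, ← hp0, ← h.1.1]
        ext <;> simp [hp]
      · left
        exact T.i1 b _ _ hc (by rw [← hp0, ← h.1.1, mul_one])
  rcases h1 with rfl | rfl
  · left
    rw [slab, inv_smul_smul, ← hlab_true] at h
    exact ⟨rfl, T.hlab_inj h⟩
  · right
    rw [slab, T.pos_dst', map_mul, mul_inv_rev, mul_smul, inv_smul_smul, ← hlab_false] at h
    exact ⟨rfl, T.hlab_inj h⟩

end Strip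

end Pool.Agent.Lib.MP_8cfc4a_al
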