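import Pool.Agent.Lib.MP_8cfc4a_al.Strip

/-!
The group obtained by attaching strips, and its special structure.
-/

namespace Pool.Agent.Lib.MP_8cfc4a_al

open SemidirectProduct

section rmap
variable {V V' : Type} {Γ : SimpleGraph V} {Γ' : SimpleGraph V'}

/-- The map of Artin groups induced by a graph homomorphism. -/
def rmap (f : V → V') (hf : ∀ u v, Γ.Adj u v → Γ'.Adj (f u) (f v)) : RAAG Γ →* RAAG Γ' :=
  rlift (fun v => gen Γ' (f v)) (fun u v h => gen_comm (hf u v h))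

@[simp] theorem rmap_gen (f : V → V') (hf : ∀ u v, Γ.Adj u v → Γ'.Adj (f u) (f v)) (v : V) :
    rmap f hf (gen Γ v) = gen Γ' (f v) := rlift_gen _ _ _

variable {Q Q' : Type} [Group Q] [MulAction Q V] [GAct Q Γ] [Group Q'] [MulAction Q' V']
  [GAct Q' Γ']

/-- The induced map of semidirect products. -/
def wmap (f : V → V') (hf : ∀ u v, Γ.Adj u v → Γ'.Adj (f u) (f v)) (φ : Q →* Q')
    (h : ∀ g v, f (g • v) = φ g • f v) : Wr Γ Q →* Wr Γ' Q' :=
  SemidirectProduct.map (rmap f hf) φ (fun g => rhom_ext fun v => by simp [h])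

@[simp] theorem wmap_left (f : V → V') (hf : ∀ u v, Γ.Adj u v → Γ'.Adj (f u) (f v))
    (φ : Q →* Q') (h : ∀ g v, f (g • v) = φ g • f v) (x : Wr Γ Q) :
    (wmap f hf φ h x).left = rmap f hf x.left := rfl
@[simp] theorem wmap_right (f : V → V') (hf : ∀ u v, Γ.Adj u v → Γ'.Adj (f u) (f v))
    (φ : Q →* Q') (h : ∀ g v, f (g • v) = φ g • f v) (x : Wr Γ Q) :
    (wmap f hf φ h x).right = φ x.right := rfl

end rmap

namespace Strip
variable {X : Sp} (T : Strip X)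

/-- horizontal letters in the free product -/
def hv0 : X.S ⊕ T.A → Monoid.Coprod X.G (FreeGroup (T.A ⊕ T.Y))
  | .inl s => Monoid.Coprod.inl (X.val s)
  | .inr a => Monoid.Coprod.inr (FreeGroup.of (.inl a))

/-- vertical letters in the free product -/
def tv0 (v : T.Y) : Monoid.Coprod X.G (FreeGroup (T.A ⊕ T.Y)) :=
  Monoid.Coprod.inr (FreeGroup.of (.inr v))

/-- the squares -/
def rel (e : T.E) : Monoid.Coprod X.G (FreeGroup (T.A ⊕ T.Y)) :=
  T.hv0 (T.lt false e) * T.tv0 (T.dst e) * (T.tv0 (T.src e) * T.hv0 (T.lt true e))⁻¹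

/-- the new group -/
abbrev U : Type := Ag (Set.range T.rel)

/-- inclusion of the old group -/
def ι : X.G →* T.U := agι _
/-- new horizontal letters -/
def av (a : T.A) : T.U := agn _ (.inl a)
/-- vertical letters -/
def tv (v : T.Y) : T.U := agn _ (.inr v)
/-- all horizontal letters -/
def hv (l : X.S ⊕ T.A) : T.U := Sum.elim (fun s => T.ι (X.val s)) T.av l

theorem lift_rel {W : Type} [Group W] (μ : X.G →* W) (α : T.A → W) (τ : T.Y → W) (e : T.E) :
    Monoid.Coprod.lift μ (FreeGroup.lift (Sum.elim α τ)) (T.rel e) =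
      Sum.elim (fun s => μ (X.val s)) α (T.lt false e) * τ (T.dst e) *
        (τ (T.src e) * Sum.elim (fun s => μ (X.val s)) α (T.lt true e))⁻¹ := by
  have h : ∀ l, Monoid.Coprod.lift μ (FreeGroup.lift (Sum.elim α τ)) (T.hv0 l) =
      Sum.elim (fun s => μ (X.val s)) α l := by
    rintro (s | a) <;> simp [hv0]
  simp [rel, h, tv0]

theorem square (e : T.E) :
    T.hv (T.lt false e) * T.tv (T.dst e) = T.tv (T.src e) * T.hv (T.lt true e) := by
  have h := ag_rel (Set.range T.rel) ⟨e, rfl⟩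
  have h2 : agn (Set.range T.rel) = Sum.elim T.av T.tv := by
    funext x; cases x <;> rfl
  rw [h2, lift_rel, mul_inv_eq_one] at h
  exact h

theorem exists_lift {W : Type} [Group W] (μ : X.G →* W) (α : T.A → W) (τ : T.Y → W)
    (h : ∀ e, Sum.elim (fun s => μ (X.val s)) α (T.lt false e) * τ (T.dst e) =
      τ (T.src e) * Sum.elim (fun s => μ (X.val s)) α (T.lt true e)) :
    ∃ f : T.U →* W, (∀ g, f (T.ι g) = μ g) ∧ (∀ a, f (T.av a) = α a) ∧ ∀ v, f (T.tv v) = τ v := by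
  obtain ⟨f, h1, h2⟩ := ag_lift (Set.range T.rel) μ (Sum.elim α τ) (by
    rintro _ ⟨e, rfl⟩
    rw [lift_rel, h, mul_inv_cancel])
  exact ⟨f, h1, fun a => h2 (.inl a), fun v => h2 (.inr v)⟩

theorem U_gen (K : Subgroup T.U) (h1 : ∀ g, T.ι g ∈ K) (h2 : ∀ a, T.av a ∈ K)
    (h3 : ∀ v, T.tv v ∈ K) : K = ⊤ :=
  ag_gen _ K h1 (by rintro (a | v); exacts [h2 a, h3 v])

/-- the map on the old group -/
def μ0 : Wr X.Γ X.Q →* Wr T.Γ' T.Q' :=
  wmap (fun v => (V2.h (.inl 1) (some v) : T.V')) (fun _ _ h => ⟨rfl, h⟩)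
    (T.emb.comp (MonoidHom.inr _ _)) (fun g v => by simp)

/-- values of letters -/
def val' : (X.S ⊕ T.A) ⊕ T.Y → T.U := Sum.elim T.hv T.tv

theorem σ_src (e) : T.σ' (.inr (T.src e)) • T.hl (T.lt true e) = T.hl (T.lt false e) := by
  have := T.σJ_slab e
  simp only [σ', mul_smul]
  rw [show T.emb (T.pos true (T.src e)) • T.hl (T.lt true e) = T.slab true e from rfl, this, slab,
    inv_smul_smul]

theorem σ_sq (e) : T.emb (T.hp (T.lt false e)) * T.σ' (.inr (T.dst e)) =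
    T.σ' (.inr (T.src e)) * T.emb (T.hp (T.lt true e)) := by
  simp [σ', T.pos_dst', T.comp_dst, mul_assoc]

theorem y_sq (e) : T.emb (T.hp (T.lt false e)) • T.y' (.inr (T.dst e)) = T.y' (.inr (T.src e)) := by
  simp [y', T.pos_dst', T.comp_dst]

theorem adj_sq (e) : T.Γ'.Adj (T.y' (.inr (T.src e))) (T.hl (T.lt false e)) :=
  (T.adj_v _ _ _).2 ⟨e, rfl, by rw [slab, inv_smul_smul]⟩

theorem exists_Ψ : ∃ Ψ : T.U →* Wr T.Γ' T.Q', (∀ g, Ψ (T.ι g) = T.μ0 (X.Ψ g)) ∧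
    ∀ s, Ψ (T.val' s) = ⟨gen T.Γ' (T.y' s), T.σ' s⟩ := by
  have h0 : ∀ l, Sum.elim (fun s => (T.μ0.comp X.Ψ) (X.val s))
      (fun a => (⟨gen T.Γ' (T.y' (.inl (.inr a))), T.σ' (.inl (.inr a))⟩ : Wr T.Γ' T.Q')) l =
      ⟨gen T.Γ' (T.hl l), T.emb (T.hp l)⟩ := by
    rintro (s | a)
    · refine SemidirectProduct.ext ?_ ?_
      · simp only [Sum.elim_inl, MonoidHom.comp_apply, X.hΨ, μ0, wmap_left, rmap_gen, hl]
      · simp only [Sum.elim_inl, MonoidHom.comp_apply, X.hΨ, μ0, wmap_right]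
        rfl
    · rfl
  obtain ⟨f, h1, h2, h3⟩ := T.exists_lift (T.μ0.comp X.Ψ)
    (fun a => ⟨gen T.Γ' (T.y' (.inl (.inr a))), T.σ' (.inl (.inr a))⟩)
    (fun v => ⟨gen T.Γ' (T.y' (.inr v)), T.σ' (.inr v)⟩) (by
      intro e
      rw [h0, h0]
      refine SemidirectProduct.ext ?_ (T.σ_sq e)
      simp only [mul_left, act_gen, y_sq, σ_src]
      exact (gen_comm (T.adj_sq e)).eq.symm)
  refine ⟨f, h1, ?_⟩
  rintro ((s | a) | v)
  · exact (h1 _).trans (h0 (.inl s))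
  · exact h2 a
  · exact h3 v

theorem sq_v (v ε l δ) (h : T.Γ'.Adj (lab T.y' T.σ' (.inr v, ε)) (lab T.y' T.σ' (.inl l, δ))) :
    ∃ v' l', bp (T.tv v) ε * bp (T.hv l') δ = bp (T.hv l) δ * bp (T.tv v') ε ∧
      bp (T.σ' (.inl l)) δ • lab T.y' T.σ' (.inr v', ε) = lab T.y' T.σ' (.inr v, ε) ∧
      bp (T.σ' (.inr v)) ε • lab T.y' T.σ' (.inl l', δ) = lab T.y' T.σ' (.inl l, δ) := by
  have hσ : ∀ l, T.σ' (.inl l) = T.emb (T.hp l) := fun _ => rfl
  cases ε
  · rw [lab_inr_false, adj_v] at h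
    obtain ⟨e, he, h⟩ := h
    rw [← he, ← T.σJ_slab e, mul_smul, inv_smul_smul, lab_inl] at h
    rcases T.key true v e l δ he.symm h with ⟨rfl, rfl, rfl⟩ | ⟨rfl, rfl, rfl⟩
    · refine ⟨T.dst e, T.lt false e, ?_, ?_, ?_⟩
      · simp only [bp_true, bp_false]
        rw [inv_mul_eq_iff_eq_mul, ← mul_assoc, ← T.square]; simp
      · simp [lab_inr_false, hσ, T.pos_dst', T.comp_dst, mul_assoc]
      · simp only [lab_inl, hlab_true, bp_false]
        rw [inv_smul_eq_iff, σ_src]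
    · refine ⟨T.src e, T.lt false e, ?_, ?_, ?_⟩
      · simp only [bp_false]
        rw [← mul_inv_rev, T.square, mul_inv_rev]
      · simp [lab_inr_false, hσ, T.pos_dst', T.comp_dst, mul_assoc]
      · simp only [lab_inl, hlab_false, bp_false]
        rw [← mul_smul, ← mul_inv_rev, σ_sq, mul_inv_rev, mul_smul, ← σ_src, inv_smul_smul]
  · rw [lab_inr_true, adj_v] at h
    obtain ⟨e, he, h⟩ := h
    rw [lab_inl] at h
    rcases T.key false v e l δ he.symm h with ⟨rfl, rfl, rfl⟩ | ⟨rfl, rfl, rfl⟩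
    · refine ⟨T.dst e, T.lt true e, (T.square e).symm, T.y_sq e, ?_⟩
      simp only [lab_inl, hlab_true, bp_true, σ_src]
    · refine ⟨T.src e, T.lt true e, ?_, ?_, ?_⟩
      · simp only [bp_true, bp_false]
        rw [eq_inv_mul_iff_mul_eq, ← mul_assoc, T.square]; simp
      · simp [lab_inr_true, hσ, T.pos_dst', T.comp_dst, mul_assoc]
      · simp only [lab_inl, hlab_false, bp_true]
        rw [eq_inv_smul_iff, ← mul_smul, σ_sq, mul_smul, smul_inv_smul, σ_src]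

theorem sq_h (l ε l' δ) (h : T.Γ'.Adj (T.hlab l ε) (T.hlab l' δ)) :
    ∃ s s', l = .inl s ∧ l' = .inl s' ∧ X.Γ.Adj (X.lb (s, ε)) (X.lb (s', δ)) := by
  rcases l with s | a <;> rcases l' with s' | a'
  · exact ⟨s, s', rfl, rfl, h.2⟩
  · cases δ <;> simp [hlab, adj_hh] at h
  · cases ε <;> simp [hlab, adj_hh] at h
  · exfalso
    by_cases h1 : T.hlab (.inr a) ε = T.hlab (.inr a') δ
    · exact h.ne h1
    · apply h1
      cases ε <;> cases δ <;> simp only [hlab, adj_hh, Sum.inr.injEq, Prod.mk.injEq] at h ⊢ <;>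
        obtain ⟨⟨h2, rfl⟩, -⟩ := h
      · rfl
      · rw [h2]
      · rw [h2]
      · rfl

/-- The new special structure. -/
noncomputable def sp : Sp where
  G := T.U
  S := (X.S ⊕ T.A) ⊕ T.Y
  V := T.V'
  Γ := T.Γ'
  Q := T.Q'
  val := T.val'
  y := T.y'
  σ := T.σ'
  Ψ := T.exists_Ψ.choose
  fp := haveI := X.fp; ag_fp _ (Set.finite_range _)
  hgen := T.U_gen _ (fun g => by
      have hg : g ∈ Subgroup.closure (Set.range X.val) := by rw [X.hgen]; trivial
      have : Subgroup.closure (Set.range X.val) ≤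
          (Subgroup.closure (Set.range T.val')).comap T.ι := by
        rw [Subgroup.closure_le]
        rintro _ ⟨s, rfl⟩
        exact Subgroup.subset_closure ⟨.inl (.inl s), rfl⟩
      exact this hg)
    (fun a => Subgroup.subset_closure ⟨.inl (.inr a), rfl⟩)
    (fun v => Subgroup.subset_closure ⟨.inr v, rfl⟩)
  hΨ := T.exists_Ψ.choose_spec.2
  inj := T.lab_inj
  sq := by
    rintro ⟨l | v, ε⟩ ⟨l' | v', δ⟩ h
    · rw [lab_inl, lab_inl] at h
      obtain ⟨s, s', rfl, rfl, h'⟩ := T.sq_h _ _ _ _ h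
      obtain ⟨k', m', h1, h2, h3⟩ := X.sq _ _ h'
      refine ⟨(.inl (.inl k'.1), k'.2), (.inl (.inl m'.1), m'.2), ?_, h2, ?_⟩
      · have := congrArg T.ι h1
        simpa [val', hv] using this
      · rw [lab_inl, lab_inl]
        have : bp (T.σ' (.inl (.inl s'))) δ = T.emb (1, bp (X.σ s') δ) := by
          cases δ
          · simp [σ', hp, ← map_inv]
          · rfl
        simp only at h3
        simp [this, hlab, h3]
    · obtain ⟨w, m, h1, -, h3⟩ := T.sq_v v' δ l ε h.symm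
      exact ⟨(.inl m, ε), (.inr w, δ), h1.symm, rfl, h3⟩
    · obtain ⟨w, m, h1, h2, -⟩ := T.sq_v v ε l' δ h
      exact ⟨(.inr w, ε), (.inl m, δ), h1, rfl, h2⟩
    · exfalso
      cases ε <;> cases δ <;> simp only [lab_inr_true, lab_inr_false] at h <;> exact h

theorem sp_Ψ_ι (g : X.G) : T.sp.Ψ (T.ι g) = T.μ0 (X.Ψ g) := T.exists_Ψ.choose_spec.1 g

/-- the cone vertex of the base piece -/
def z : T.V' := .h (.inl 1) none
/-- all cone vertices -/
def Z : Set T.V' := {x | match x with | .h _ none => True | _ => False}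

theorem Z_smul (g : T.Q') (v : T.V') : g • v ∈ T.Z ↔ v ∈ T.Z := by
  rcases v with ⟨i, _ | o⟩ | ⟨g, j⟩ <;> simp [Z]

theorem y_not_Z (s) : T.y' s ∉ T.Z := by
  rcases s with (s | a) | v <;> simp [Z, y', hl]

theorem nb_z (x : T.V') : x ∈ T.Γ'.neighborSet T.z ↔ ∃ v, x = .h (.inl 1) (some v) := by
  rw [SimpleGraph.mem_neighborSet]
  rcases x with ⟨i, _ | o⟩ | ⟨g, j⟩
  · simp [z, adj_hh, adjO]
  · simp [z, adj_hh, adjO, eq_comm]
  · rw [SimpleGraph.adj_comm, adj_v]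
    simp [z, slab_eq]

theorem convex (u : T.U) (hu : (T.sp.Ψ u).left ∈ par T.Γ' (T.Γ'.neighborSet T.z)) :
    u ∈ T.ι.range := by
  have h := T.sp.convex {l | ∃ s, l = .inl (.inl s)} (T.Γ'.neighborSet T.z) (by
    rintro _ ⟨s, rfl⟩ (v : T.V')
    have : T.σ' (.inl (.inl s)) • T.z = T.z := by simp [σ', z, hp]
    change T.Γ'.Adj T.z (T.σ' (.inl (.inl s)) • v) ↔ T.Γ'.Adj T.z v
    conv_lhs => rw [← this]
    exact adj_smul_iff (Γ := T.Γ') _ _ _) (by
    rintro ⟨(s | a) | v, ε⟩ h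
    · exact ⟨s, rfl⟩
    · obtain ⟨w, h⟩ := (T.nb_z _).1 h
      have h' : lab T.y' T.σ' (.inl (.inr a), ε) = _ := h
      rw [lab_inl] at h'
      cases ε <;> simp [hlab] at h'
    · obtain ⟨w, h⟩ := (T.nb_z _).1 h
      have h' : lab T.y' T.σ' (.inr v, ε) = _ := h
      cases ε <;> simp [lab_inr_true, lab_inr_false] at h') u hu
  refine (Subgroup.closure_le _).2 ?_ h
  rintro _ ⟨_, ⟨s, rfl⟩, rfl⟩
  exact ⟨X.val s, rfl⟩

end Strip

end Pool.Agent.Lib.MP_8cfc4a_al
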